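import Pool.Agent.P.MP_dc233e_lc.Std

/-!
Digraphs with hidden colours on paths: shapes, generic models, effective back-and-forth.
-/

namespace Pool.Agent.P.MP_dc233e_lc.Dg

open Pool.Agent.Lib.Helper43

structure DS where
  e : ℕ → ℕ → Bool
  c : List ℕ → Bool

def pu (i j : ℕ) : Bool := !(i == j) && !(i == j + 1)

def pe (N i j : ℕ) : Bool := if i = j then i == 0 else !(i == (j + 1) % N)

def ShU (e : ℕ → ℕ → Bool) (t : List ℕ) : Prop :=
  0 < t.length ∧ ∀ i < t.length, ∀ j < t.length, e (t.getD i 0) (t.getD j 0) = pu i j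

def ShG (e : ℕ → ℕ → Bool) (g : List ℕ) : Prop :=
  ∀ i < g.length, ∀ j < g.length, e (g.getD i 0) (g.getD j 0) = pe g.length i j

def gX (n : ℕ) : ℕ := if n % 3 = 0 then eX (n / 3) else n / 3
def gY (n : ℕ) : ℕ := if n % 3 = 0 then eY (n / 3) else n / 3
def gN (n : ℕ) : ℕ := Nat.pair n (gX n + gY n) + 4
def gA (n : ℕ) : Prop := n % 3 = 0 → Alive (n / 3)
def gP (ψ : ℕ → Bool) (n : ℕ) : Bool := if n % 3 = 0 then ψ (n / 3) else n % 3 == 2
def sp {X : Type} (n : ℕ) (g : List X) : List X := (g.drop 1).take (gX n + 1)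
def tp {X : Type} (n : ℕ) (g : List X) : List X := (g.drop (gX n + 3)).take (gY n + 1)

theorem gN_ge (n : ℕ) : gX n + gY n + 4 ≤ gN n := by
  have := Nat.right_le_pair n (gX n + gY n); unfold gN; omega

theorem gN_ge' (n : ℕ) : n + 4 ≤ gN n := by
  have := Nat.left_le_pair n (gX n + gY n); unfold gN; omega

theorem gN_inj {m n : ℕ} (h : gN m = gN n) : m = n := by
  unfold gN at h
  exact (Nat.pair_eq_pair.1 (Nat.add_right_cancel h)).1

theorem sp_map {X Y : Type} (f : X → Y) (n : ℕ) (g : List X) :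
    sp n (g.map f) = (sp n g).map f := by simp [sp, List.map_take]

theorem tp_map {X Y : Type} (f : X → Y) (n : ℕ) (g : List X) :
    tp n (g.map f) = (tp n g).map f := by simp [tp, List.map_take, List.map_drop]

theorem mem_sp {X : Type} {n : ℕ} {g : List X} {x : X} (h : x ∈ sp n g) : x ∈ g :=
  List.mem_of_mem_drop (List.mem_of_mem_take h)

theorem mem_tp {X : Type} {n : ℕ} {g : List X} {x : X} (h : x ∈ tp n g) : x ∈ g :=
  List.mem_of_mem_drop (List.mem_of_mem_take h)

theorem len_sp {X : Type} {n : ℕ} {g : List X} (h : g.length = gN n) :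
    (sp n g).length = gX n + 1 := by
  have := gN_ge n
  simp only [sp, List.length_take, List.length_drop]; omega

theorem len_tp {X : Type} {n : ℕ} {g : List X} (h : g.length = gN n) :
    (tp n g).length = gY n + 1 := by
  have := gN_ge n
  simp only [tp, List.length_take, List.length_drop]; omega

theorem getD_td (g : List ℕ) (a b i : ℕ) (h : i < b) :
    ((g.drop a).take b).getD i 0 = g.getD (a + i) 0 := by
  simp [List.getD_eq_getElem?_getD, h]

theorem getD_map {X : Type} (u : X → ℕ) (t : List X) {i : ℕ} (h : i < t.length) :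
    (t.map u).getD i 0 = u t[i] := by
  simp [List.getD_eq_getElem?_getD, h]

theorem getD_mem {t : List ℕ} {i : ℕ} (h : i < t.length) : t.getD i 0 ∈ t := by
  simp [List.getD_eq_getElem?_getD, h]

theorem exists_getD {t : List ℕ} {a : ℕ} (h : a ∈ t) : ∃ i < t.length, t.getD i 0 = a := by
  obtain ⟨i, hi, rfl⟩ := List.getElem_of_mem h
  exact ⟨i, hi, by simp [List.getD_eq_getElem?_getD, hi]⟩

theorem ShU.tr {X : Type} {e e' : ℕ → ℕ → Bool} {u v : X → ℕ} {t : List X}
    (h : ShU e (t.map u)) (he : ∀ x ∈ t, ∀ y ∈ t, e (u x) (u y) = e' (v x) (v y)) :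
    ShU e' (t.map v) := by
  refine ⟨by simpa using h.1, fun i hi j hj => ?_⟩
  rw [List.length_map] at hi hj
  have := h.2 i (by simpa using hi) j (by simpa using hj)
  rw [getD_map _ _ hi, getD_map _ _ hj] at this ⊢
  rw [← he _ (List.getElem_mem _) _ (List.getElem_mem _), this]

theorem ShG.tr {X : Type} {e e' : ℕ → ℕ → Bool} {u v : X → ℕ} {t : List X}
    (h : ShG e (t.map u)) (he : ∀ x ∈ t, ∀ y ∈ t, e (u x) (u y) = e' (v x) (v y)) :
    ShG e' (t.map v) := by
  intro i hi j hj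
  rw [List.length_map] at hi hj
  have := h i (by simpa using hi) j (by simpa using hj)
  rw [getD_map _ _ hi, getD_map _ _ hj, List.length_map] at this ⊢
  rw [← he _ (List.getElem_mem _) _ (List.getElem_mem _), this]

theorem ShU.map {e e' : ℕ → ℕ → Bool} {v : ℕ → ℕ} {t : List ℕ}
    (h : ShU e t) (he : ∀ x ∈ t, ∀ y ∈ t, e x y = e' (v x) (v y)) : ShU e' (t.map v) :=
  ShU.tr (u := id) (by rwa [List.map_id]) he

theorem ShG.map {e e' : ℕ → ℕ → Bool} {v : ℕ → ℕ} {t : List ℕ}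
    (h : ShG e t) (he : ∀ x ∈ t, ∀ y ∈ t, e x y = e' (v x) (v y)) : ShG e' (t.map v) :=
  ShG.tr (u := id) (by rwa [List.map_id]) he

theorem nodup_of_getD {t : List ℕ}
    (h : ∀ i < t.length, ∀ j < t.length, t.getD i 0 = t.getD j 0 → i = j) : t.Nodup := by
  rw [List.nodup_iff_injective_getElem]
  intro i j hij
  exact Fin.ext (h i i.2 j j.2 (by simpa [List.getD_eq_getElem?_getD] using hij))

theorem ShU.inj {e : ℕ → ℕ → Bool} {t : List ℕ} (h : ShU e t) :
    ∀ i < t.length, ∀ j < t.length, t.getD i 0 = t.getD j 0 → i = j := by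
  intro i hi j hj hij
  have h1 := h.2 i hi i hi
  have h2 := h.2 i hi j hj
  have h3 := h.2 j hj i hi
  rw [← hij, h1] at h2 h3
  simp [pu] at h2 h3
  omega

theorem ShU.noloop {e : ℕ → ℕ → Bool} {t : List ℕ} (h : ShU e t) {a : ℕ} (ha : a ∈ t) :
    e a a = false := by
  obtain ⟨i, hi, rfl⟩ := exists_getD ha
  rw [h.2 i hi i hi]; simp [pu]

theorem succ_mod {N j : ℕ} (h : j < N) : (j + 1) % N = if j + 1 = N then 0 else j + 1 := by
  split_ifs with h1
  · rw [h1, Nat.mod_self]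
  · exact Nat.mod_eq_of_lt (by omega)

theorem pe_false {N i j : ℕ} (hj : j < N) : pe N i j = false ↔
    (i = j ∧ i ≠ 0) ∨ (i ≠ j ∧ ((j + 1 = N ∧ i = 0) ∨ (j + 1 ≠ N ∧ i = j + 1))) := by
  unfold pe
  rw [succ_mod hj]
  split_ifs <;> simp <;> omega

theorem ShG.inj {e : ℕ → ℕ → Bool} {g : List ℕ} (h : ShG e g) (h3 : 3 ≤ g.length) :
    ∀ i < g.length, ∀ j < g.length, g.getD i 0 = g.getD j 0 → i = j := by
  intro i hi j hj hij
  by_contra hne
  have h1 := h i hi i hi
  have h2 := h i hi j hj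
  have h4 := h j hj i hi
  have h5 := h j hj j hj
  rw [← hij, h1] at h2 h4 h5
  have h6 : pe g.length i i = false := by
    by_contra h6
    have h7 : pe g.length j j ≠ false := h5 ▸ h6
    rw [pe_false hi] at h6
    rw [ne_eq, pe_false hj] at h7
    omega
  rw [h6, eq_comm, pe_false (by assumption)] at h2 h4
  omega

/-- distinct vertices of a gadget are adjacent in one direction -/
theorem ShG.adj {e : ℕ → ℕ → Bool} {g : List ℕ} (h : ShG e g) (h3 : 3 ≤ g.length) {i j : ℕ}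
    (hi : i < g.length) (hj : j < g.length) (hij : i ≠ j) :
    e (g.getD i 0) (g.getD j 0) = true ∨ e (g.getD j 0) (g.getD i 0) = true := by
  rw [h i hi j hj, h j hj i hi]
  by_contra h1
  simp only [not_or, Bool.not_eq_true] at h1
  rw [pe_false hi, pe_false hj] at h1
  omega

theorem ShG.loop {e : ℕ → ℕ → Bool} {g : List ℕ} (h : ShG e g) (h3 : 3 ≤ g.length) :
    e (g.getD 0 0) (g.getD 0 0) = true := by
  rw [h 0 (by omega) 0 (by omega)]; simp [pe]

theorem ShG.rigid {e : ℕ → ℕ → Bool} {g h : List ℕ} (hg : ShG e g) (hh : ShG e h)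
    (h3 : 3 ≤ h.length) (hs : ∀ a ∈ h, a ∈ g) : h = g := by
  have key : ∀ i < h.length, i < g.length ∧ h.getD i 0 = g.getD i 0 := by
    intro i
    induction i with
    | zero =>
      intro hi
      obtain ⟨j, hj, e1⟩ := exists_getD (hs _ (getD_mem hi))
      have h1 := hh.loop h3
      rw [← e1, hg j hj j hj] at h1
      have : j = 0 := by simpa [pe] using h1
      subst this
      exact ⟨hj, e1.symm⟩
    | succ i ih =>
      intro hi
      obtain ⟨h1, h2⟩ := ih (by omega)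
      obtain ⟨j, hj, e1⟩ := exists_getD (hs _ (getD_mem hi))
      have h4 : e (h.getD (i + 1) 0) (h.getD i 0) = false := by
        rw [hh _ hi _ (by omega), pe_false (by omega)]; omega
      have h5 : e (h.getD (i + 1) 0) (h.getD (i + 1) 0) = false := by
        rw [hh _ hi _ hi, pe_false hi]; omega
      have h6 : j ≠ i := by
        rintro rfl
        have := hh.inj h3 _ hi j (by omega) (by rw [← e1, h2])
        omega
      rw [← e1, h2, hg _ hj _ h1, pe_false h1] at h4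
      rw [← e1, hg _ hj _ hj, pe_false hj] at h5
      have : j = i + 1 := by omega
      subst this
      exact ⟨hj, e1.symm⟩
  obtain ⟨k1, k2⟩ := key (h.length - 1) (by omega)
  obtain ⟨k3, k4⟩ := key 0 (by omega)
  have h7 : e (h.getD 0 0) (h.getD (h.length - 1) 0) = false := by
    rw [hh _ (by omega) _ (by omega), pe_false (by omega)]; omega
  rw [k2, k4, hg _ k3 _ k1, pe_false k1] at h7
  have h8 : h.length = g.length := by omega
  refine List.ext_getElem h8 (fun i h1 h2 => ?_)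
  simpa [List.getD_eq_getElem?_getD, h1, h2] using (key i h1).2

theorem ShG.shU_sp {e : ℕ → ℕ → Bool} {n : ℕ} {g : List ℕ} (h : ShG e g) (hl : g.length = gN n) :
    ShU e (sp n g) := by
  have h0 := gN_ge n
  refine ⟨by rw [len_sp hl]; omega, fun i hi j hj => ?_⟩
  rw [len_sp hl] at hi hj
  rw [sp, getD_td _ _ _ _ hi, getD_td _ _ _ _ hj, h _ (by omega) _ (by omega), Bool.eq_iff_iff,
    ← Bool.not_eq_false, pe_false (by omega)]
  simp [pu]; omega

theorem ShG.shU_tp {e : ℕ → ℕ → Bool} {n : ℕ} {g : List ℕ} (h : ShG e g) (hl : g.length = gN n) :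
    ShU e (tp n g) := by
  have h0 := gN_ge n
  refine ⟨by rw [len_tp hl]; omega, fun i hi j hj => ?_⟩
  rw [len_tp hl] at hi hj
  rw [tp, getD_td _ _ _ _ hi, getD_td _ _ _ _ hj, h _ (by omega) _ (by omega), Bool.eq_iff_iff,
    ← Bool.not_eq_false, pe_false (by omega)]
  simp [pu]; omega

def DValid (ψ : ℕ → Bool) (B : DS) : Prop :=
  ∀ n g, gA n → g.length = gN n → ShG B.e g → xor (B.c (sp n g)) (B.c (tp n g)) = gP ψ n

def DPI (B B' : DS) (p : List (ℕ × ℕ)) : Prop :=
  (∀ x ∈ p, ∀ y ∈ p, (x.1 = y.1 ↔ x.2 = y.2)) ∧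
  (∀ x ∈ p, ∀ y ∈ p, B.e x.1 y.1 = B'.e x.2 y.2) ∧
  ∀ t : List (ℕ × ℕ), (∀ x ∈ t, x ∈ p) → ShU B.e (t.map Prod.fst) →
    B.c (t.map Prod.fst) = B'.c (t.map Prod.snd)

def DGen (ψ : ℕ → Bool) (B : DS) : Prop :=
  ∀ B', DValid ψ B' → ∀ p, DPI B' B p → ∀ a, ∃ b, DPI B' B ((a, b) :: p)

def dshift (w : ℕ → Bool) (B : DS) : DS := ⟨B.e, fun t => xor (B.c t) (w (t.length - 1))⟩

theorem dshift_dshift (w : ℕ → Bool) (B : DS) : dshift w (dshift w B) = B := by
  cases B; simp [dshift]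

theorem DValid.shift {ψ ψ' w : ℕ → Bool} {B : DS} (h : DValid ψ B)
    (hw : ∀ l, Alive l → ψ' l = xor (ψ l) (xor (w (eX l)) (w (eY l)))) :
    DValid ψ' (dshift w B) := by
  intro n g h1 h2 h3
  have h4 := h n g h1 h2 h3
  simp only [dshift, len_sp h2, len_tp h2, Nat.add_sub_cancel]
  have h5 : gP ψ' n = xor (gP ψ n) (xor (w (gX n)) (w (gY n))) := by
    unfold gP gX gY
    split_ifs with h0
    · exact hw _ (h1 h0)
    · simp
  rw [h5, ← h4]
  generalize B.c (sp n g) = a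
  generalize B.c (tp n g) = b
  generalize w (gX n) = c
  generalize w (gY n) = d
  revert a b c d; decide

theorem DPI.shift {B B' : DS} {p : List (ℕ × ℕ)} (h : DPI B B' p) (w : ℕ → Bool) :
    DPI (dshift w B) (dshift w B') p :=
  ⟨h.1, h.2.1, fun t h1 h2 => by simp only [dshift, List.length_map]; rw [h.2.2 t h1 h2]⟩

theorem DGen.shift {ψ ψ' w : ℕ → Bool} {B : DS} (h : DGen ψ B)
    (hw : ∀ l, Alive l → ψ' l = xor (ψ l) (xor (w (eX l)) (w (eY l)))) :
    DGen ψ' (dshift w B) := by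
  intro B' hV p hp a
  have h1 : DValid ψ (dshift w B') := hV.shift (fun l hl => by rw [hw l hl]; simp)
  have h2 := hp.shift w
  rw [dshift_dshift] at h2
  obtain ⟨b, hb⟩ := h _ h1 p h2 a
  have h3 := hb.shift w
  rw [dshift_dshift] at h3
  exact ⟨b, h3⟩

theorem DPI.symm {B B' : DS} {p : List (ℕ × ℕ)} (h : DPI B B' p) :
    DPI B' B (p.map Prod.swap) := by
  refine ⟨fun x hx y hy => ?_, fun x hx y hy => ?_, fun t h1 h2 => ?_⟩
  · obtain ⟨x', hx', rfl⟩ := List.mem_map.1 hx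
    obtain ⟨y', hy', rfl⟩ := List.mem_map.1 hy
    exact (h.1 x' hx' y' hy').symm
  · obtain ⟨x', hx', rfl⟩ := List.mem_map.1 hx
    obtain ⟨y', hy', rfl⟩ := List.mem_map.1 hy
    exact (h.2.1 x' hx' y' hy').symm
  · obtain ⟨s, hs, rfl⟩ := exists_lift h1
    simp only [List.map_map] at h2 ⊢
    exact (h.2.2 s hs (h2.tr (fun x hx y hy => (h.2.1 x (hs x hx) y (hs y hy)).symm))).symm

theorem DGen.back {ψ : ℕ → Bool} {B B' : DS} (h : DGen ψ B) (hV : DValid ψ B')
    {p : List (ℕ × ℕ)} (hp : DPI B B' p) (b : ℕ) : ∃ a, DPI B B' ((a, b) :: p) := by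
  obtain ⟨a, ha⟩ := h _ hV _ hp.symm b
  refine ⟨a, ?_⟩
  simpa [List.map_map] using ha.symm

theorem DPI_nil (B B' : DS) : DPI B B' [] := by
  refine ⟨by simp, by simp, fun t h1 h2 => ?_⟩
  obtain rfl : t = [] := List.eq_nil_iff_forall_not_mem.2 (fun x hx => by simpa using h1 x hx)
  simpa using h2.1

/-! ### deciding shapes and partial isomorphisms -/

def shUb (E : ℕ × ℕ → Bool) (t : List ℕ) : Bool :=
  decide (0 < t.length) && (List.range t.length).all (fun i => (List.range t.length).all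
    (fun j => E (t.getD i 0, t.getD j 0) == pu i j))

def shGb (E : ℕ × ℕ → Bool) (t : List ℕ) : Bool :=
  (List.range t.length).all (fun i => (List.range t.length).all
    (fun j => E (t.getD i 0, t.getD j 0) == pe t.length i j))

theorem shUb_iff {E : ℕ × ℕ → Bool} {e : ℕ → ℕ → Bool} {μ : ℕ → ℕ}
    (hE : ∀ a b, E (a, b) = e (μ a) (μ b)) (t : List ℕ) : shUb E t = true ↔ ShU e (t.map μ) := by
  have : shUb E t = true ↔ ShU (fun a b => E (a, b)) t := by simp [shUb, ShU]
  rw [this]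
  exact ⟨fun h => h.map (fun x _ y _ => hE x y), fun h => by
    simpa using h.tr (v := id) (e' := fun a b => E (a, b)) (fun x _ y _ => (hE x y).symm)⟩

theorem shGb_iff {E : ℕ × ℕ → Bool} {e : ℕ → ℕ → Bool} {μ : ℕ → ℕ}
    (hE : ∀ a b, E (a, b) = e (μ a) (μ b)) (t : List ℕ) : shGb E t = true ↔ ShG e (t.map μ) := by
  have : shGb E t = true ↔ ShG (fun a b => E (a, b)) t := by simp [shGb, ShG]
  rw [this]
  exact ⟨fun h => h.map (fun x _ y _ => hE x y), fun h => by
    simpa using h.tr (v := id) (e' := fun a b => E (a, b)) (fun x _ y _ => (hE x y).symm)⟩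

attribute [local irreducible] Computable in
theorem c_allall {γ : Type} [Primcodable γ] {E : γ → ℕ × ℕ → Bool} {t : γ → List ℕ}
    {P : ℕ → ℕ → ℕ → Bool} (hE : Computable (fun x : γ × ℕ × ℕ => E x.1 x.2)) (ht : Computable t)
    (hP : Computable (fun x : ℕ × ℕ × ℕ => P x.1 x.2.1 x.2.2)) :
    Computable (fun a => (List.range (t a).length).all (fun i => (List.range (t a).length).all
      (fun j => E a ((t a).getD i 0, (t a).getD j 0) == P (t a).length i j))) := by
  have h1 : Computable (fun x : (γ × ℕ) × ℕ =>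
      E x.1.1 ((t x.1.1).getD x.1.2 0, (t x.1.1).getD x.2 0)) :=
    hE.comp (g := fun x : (γ × ℕ) × ℕ =>
      (x.1.1, (t x.1.1).getD x.1.2 0, (t x.1.1).getD x.2 0)) (by fun_prop)
  have h2 : Computable (fun x : (γ × ℕ) × ℕ => P (t x.1.1).length x.1.2 x.2) :=
    hP.comp (g := fun x : (γ × ℕ) × ℕ => ((t x.1.1).length, x.1.2, x.2)) (by fun_prop)
  have h3 : Computable (fun y : γ × ℕ => (List.range (t y.1).length).all
      (fun j => E y.1 ((t y.1).getD y.2 0, (t y.1).getD j 0) == P (t y.1).length y.2 j)) :=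
    CFP.all (CFP.beq h1 h2) (by fun_prop)
  exact CFP.all h3 (by fun_prop)

attribute [local irreducible] Computable in
theorem c_shUb {γ : Type} [Primcodable γ] {E : γ → ℕ × ℕ → Bool} {t : γ → List ℕ}
    (hE : Computable (fun x : γ × ℕ × ℕ => E x.1 x.2)) (ht : Computable t) :
    Computable (fun a => shUb (E a) (t a)) :=
  CFP.and (CFP.decLt (CFP.const _) (by fun_prop))
    (c_allall (P := fun _ i j => pu i j) hE ht (by unfold pu; fun_prop))

attribute [local irreducible] Computable in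
theorem c_shGb {γ : Type} [Primcodable γ] {E : γ → ℕ × ℕ → Bool} {t : γ → List ℕ}
    (hE : Computable (fun x : γ × ℕ × ℕ => E x.1 x.2)) (ht : Computable t) :
    Computable (fun a => shGb (E a) (t a)) :=
  c_allall (P := pe) hE ht
    (CFP.ite (CFP.decEq (by fun_prop) (by fun_prop)) (by fun_prop) (by fun_prop))

def CompDS (μ : ℕ → ℕ) (B : DS) : Prop :=
  ∃ (Q E : ℕ × ℕ → Bool) (F : List ℕ → Bool), Computable Q ∧ Computable E ∧ Computable F ∧
    (∀ a b, Q (a, b) = true ↔ μ a = μ b) ∧ (∀ a b, E (a, b) = B.e (μ a) (μ b)) ∧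
    ∀ t, ShU B.e (t.map μ) → F t = B.c (t.map μ)

open Classical in
theorem c_DPI {μ ν : ℕ → ℕ} {B B' : DS} (h : CompDS μ B) (h' : CompDS ν B') :
    Computable (fun q : List (ℕ × ℕ) => decide (DPI B B' (q.map (Prod.map μ ν)))) := by
  obtain ⟨Q, E, F, e1, e2, e3, e4, e5, e6⟩ := h
  obtain ⟨Q', E', F', e1', e2', e3', e4', e5', e6'⟩ := h'
  have hn : Computable (shUb E) := c_shUb (E := fun _ : List ℕ => E) (by fun_prop) CFP.id
  have hc : Computable (fun q : List (ℕ × ℕ) =>
      q.all (fun x => q.all (fun y => Q (x.1, y.1) == Q' (x.2, y.2))) &&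
      (q.all (fun x => q.all (fun y => E (x.1, y.1) == E' (x.2, y.2))) &&
      (List.range (q.length + 1)).all (fun j => (tuples j q).all (fun t =>
        !shUb E (t.map (fun x => x.1)) ||
          F (t.map (fun x => x.1)) == F' (t.map (fun x => x.2)))))) := by
    fun_prop
  refine hc.of_eq (fun q => ?_)
  rw [Bool.eq_iff_iff]
  simp only [Bool.and_eq_true, List.all_eq_true, beq_iff_eq, List.mem_range, Bool.or_eq_true,
    Bool.not_eq_true', decide_eq_true_eq, mem_tuples]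
  have k1 : (∀ x ∈ q, ∀ y ∈ q, Q (x.1, y.1) = Q' (x.2, y.2)) ↔
      ∀ x ∈ q.map (Prod.map μ ν), ∀ y ∈ q.map (Prod.map μ ν), (x.1 = y.1 ↔ x.2 = y.2) := by
    simp only [List.forall_mem_map, Prod.map_fst, Prod.map_snd, ← e4, ← e4']
    exact forall₄_congr (fun _ _ _ _ => Bool.eq_iff_iff)
  have k2 : (∀ x ∈ q, ∀ y ∈ q, E (x.1, y.1) = E' (x.2, y.2)) ↔
      ∀ x ∈ q.map (Prod.map μ ν), ∀ y ∈ q.map (Prod.map μ ν), B.e x.1 y.1 = B'.e x.2 y.2 := by
    simp only [List.forall_mem_map, Prod.map_fst, Prod.map_snd, e5, e5']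
  have m1 : ∀ s : List (ℕ × ℕ), (s.map (Prod.map μ ν)).map Prod.fst =
      (s.map (fun x => x.1)).map μ := fun s => by simp [List.map_map, Function.comp_def]
  have m2 : ∀ s : List (ℕ × ℕ), (s.map (Prod.map μ ν)).map Prod.snd =
      (s.map (fun x => x.2)).map ν := fun s => by simp [List.map_map, Function.comp_def]
  rw [k1, k2]
  refine and_congr_right (fun _ => and_congr_right (fun hE =>
    ⟨fun h t h1 h2 => ?_, fun h j _ s hs => ?_⟩))
  · have h4 := length_le_of h1 (nodup_of_getD h2.inj)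
    have h5 := h2.tr (v := Prod.snd) (fun x hx y hy => hE x (h1 x hx) y (h1 y hy))
    obtain ⟨s, hs, rfl⟩ := exists_lift h1
    simp only [List.length_map] at h4
    rw [m1] at h2 ⊢
    rw [m2] at h5 ⊢
    rcases h s.length (by omega) s ⟨rfl, hs⟩ with h7 | h7
    · rw [(shUb_iff e5 _).2 h2] at h7; simp at h7
    · rw [← e6 _ h2, ← e6' _ h5, h7]
  · by_cases h3 : shUb E (s.map (fun x => x.1)) = true
    · right
      rw [shUb_iff e5, ← m1] at h3
      have h1 : ∀ x ∈ s.map (Prod.map μ ν), x ∈ q.map (Prod.map μ ν) := fun x hx => by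
        obtain ⟨y, hy, rfl⟩ := List.mem_map.1 hx
        exact List.mem_map_of_mem (hs.2 y hy)
      have h4 := h _ h1 h3
      have h5 := h3.tr (v := Prod.snd) (fun x hx y hy => hE x (h1 x hx) y (h1 y hy))
      rw [m2] at h5 h4
      rw [m1] at h3 h4
      rw [e6 _ h3, e6' _ h5, h4]
    · left; simpa using h3

theorem ds_iso {ψ : ℕ → Bool} {B B' : DS} (hV : DValid ψ B) (hG : DGen ψ B) (hV' : DValid ψ B')
    (hG' : DGen ψ B') {μ ν : ℕ → ℕ} (hμ : Function.Surjective μ) (hν : Function.Surjective ν)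
    (q0 : List (ℕ × ℕ)) (h0 : DPI B B' (q0.map (Prod.map μ ν))) :
    ∃ (θ : ℕ ≃ ℕ) (f : ℕ → ℕ), (CompDS μ B → CompDS ν B' → Computable f) ∧
      (∀ n, θ (μ n) = ν (f n)) ∧ (∀ x ∈ q0, θ (μ x.1) = ν x.2) ∧
      ∀ a b, B.e a b = B'.e (θ a) (θ b) := by
  classical
  obtain ⟨θ, f, h1, h2, h3, h4⟩ := bnf hμ hν (DPI B B') (fun p hp => hp.1)
    (fun p hp a => hG' _ hV p hp a) (fun p hp b => hG.back hV' hp b)
    (fun q => decide (DPI B B' (q.map (Prod.map μ ν)))) (fun q => by simp) q0 (by simpa using h0)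
  refine ⟨θ, f, fun c c' => h1 (by convert c_DPI c c'), h2, h3, fun a b => ?_⟩
  obtain ⟨p, hp, h7⟩ := h4 [a, b]
  exact hp.2.1 _ (h7 a (by simp)) _ (h7 b (by simp))

end Pool.Agent.P.MP_dc233e_lc.Dg
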