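import Pool.Agent.P.MP_dc233e_lc.Dg.A

/-!
Extension properties of generic coloured digraphs.
-/

namespace Pool.Agent.P.MP_dc233e_lc.Dg

open Pool.Agent.Lib.Helper43

theorem DGen.real {ψ : ℕ → Bool} {B B' : DS} (h : DGen ψ B) (hV : DValid ψ B')
    {p : List (ℕ × ℕ)} (hp : DPI B' B p) (s : List ℕ) :
    ∃ (f : ℕ → ℕ) (q : List (ℕ × ℕ)), DPI B' B q ∧ (∀ x ∈ p, x ∈ q) ∧ (∀ x ∈ q, f x.1 = x.2) ∧
      ∀ a ∈ s, (a, f a) ∈ q := by
  classical
  have key : ∃ q, DPI B' B q ∧ (∀ x ∈ p, x ∈ q) ∧ ∀ a ∈ s, ∃ b, (a, b) ∈ q := by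
    induction s with
    | nil => exact ⟨p, hp, fun _ h => h, by simp⟩
    | cons a s ih =>
      obtain ⟨q, h1, h2, h3⟩ := ih
      obtain ⟨b, hb⟩ := h _ hV q h1 a
      refine ⟨_, hb, fun x hx => List.mem_cons_of_mem _ (h2 x hx), fun a' ha' => ?_⟩
      rcases List.mem_cons.1 ha' with rfl | ha'
      · exact ⟨b, by simp⟩
      · obtain ⟨b', hb'⟩ := h3 a' ha'
        exact ⟨b', List.mem_cons_of_mem _ hb'⟩
  obtain ⟨q, h1, h2, h3⟩ := key
  have h4 : ∀ x ∈ q, (if h : ∃ b, (x.1, b) ∈ q then h.choose else 0) = x.2 := by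
    intro x hx
    have h5 : ∃ b, (x.1, b) ∈ q := ⟨x.2, hx⟩
    rw [dif_pos h5]
    exact (h1.1 _ h5.choose_spec x hx).1 rfl
  refine ⟨fun a => if h : ∃ b, (a, b) ∈ q then h.choose else 0, q, h1, h2, h4, fun a ha => ?_⟩
  obtain ⟨b, hb⟩ := h3 a ha
  have := h4 _ hb
  simp only at this ⊢
  rw [this]; exact hb

def glue (B : DS) (ne : ℕ → ℕ → Bool) (b : Bool) : DS :=
  ⟨fun u v => if u % 2 = 0 ∧ v % 2 = 0 then B.e (u / 2) (v / 2) else ne u v,
   fun t => if ∀ a ∈ t, a % 2 = 0 then B.c (t.map (fun a => a / 2)) else b⟩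

theorem glue_ee (B : DS) (ne : ℕ → ℕ → Bool) (b : Bool) {u v : ℕ} (hu : u % 2 = 0)
    (hv : v % 2 = 0) : (glue B ne b).e u v = B.e (u / 2) (v / 2) := by simp [glue, hu, hv]

theorem glue_ne (B : DS) (ne : ℕ → ℕ → Bool) (b : Bool) {u v : ℕ} (h : u % 2 = 1 ∨ v % 2 = 1) :
    (glue B ne b).e u v = ne u v := by
  simp only [glue]; rw [if_neg (by omega)]

theorem glue_ce (B : DS) (ne : ℕ → ℕ → Bool) (b : Bool) {t : List ℕ} (h : ∀ a ∈ t, a % 2 = 0) :
    (glue B ne b).c t = B.c (t.map (fun a => a / 2)) := by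
  simp only [glue]; rw [if_pos h]

theorem glue_c2 (B : DS) (ne : ℕ → ℕ → Bool) (b : Bool) (t : List ℕ) :
    (glue B ne b).c (t.map (fun a => 2 * a)) = B.c t := by
  rw [glue_ce _ _ _ (by simp)]
  simp [List.map_map, Function.comp_def]

theorem DGen.glue {ψ : ℕ → Bool} {B : DS} (hG : DGen ψ B) (hV : DValid ψ B)
    (ne : ℕ → ℕ → Bool) (b : Bool)
    (hodd : ∀ n g, gA n → g.length = gN n → ShG (glue B ne b).e g → ∀ k < g.length,
      g.getD k 0 % 2 = 1 →
      xor ((glue B ne b).c (sp n g)) ((glue B ne b).c (tp n g)) = gP ψ n) (old s : List ℕ) :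
    ∃ f : ℕ → ℕ, (∀ a ∈ old, f (2 * a) = a) ∧
      (∀ u ∈ old.map (fun a => 2 * a) ++ s, ∀ v ∈ old.map (fun a => 2 * a) ++ s,
        (glue B ne b).e u v = B.e (f u) (f v)) ∧
      ∀ t, (∀ u ∈ t, u ∈ s) → ShU (glue B ne b).e t → (glue B ne b).c t = B.c (t.map f) := by
  have h1 : DValid ψ (Dg.glue B ne b) := by
    intro n g h1 h2 h3
    by_cases h4 : ∀ a ∈ g, a % 2 = 0
    · rw [glue_ce _ _ _ (fun a ha => h4 a (mem_sp ha)),
        glue_ce _ _ _ (fun a ha => h4 a (mem_tp ha)), ← sp_map, ← tp_map]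
      exact hV n _ h1 (by simpa using h2)
        (h3.map (fun x hx y hy => glue_ee _ _ _ (h4 x hx) (h4 y hy)))
    · simp only [not_forall] at h4
      obtain ⟨a, ha, h5⟩ := h4
      obtain ⟨k, hk, rfl⟩ := exists_getD ha
      exact hodd n g h1 h2 h3 k hk (by omega)
  have h2 : DPI (Dg.glue B ne b) B (old.map (fun a => (2 * a, a))) := by
    refine ⟨fun x hx y hy => ?_, fun x hx y hy => ?_, fun t ht _ => ?_⟩
    · obtain ⟨x, -, rfl⟩ := List.mem_map.1 hx
      obtain ⟨y, -, rfl⟩ := List.mem_map.1 hy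
      simp only; omega
    · obtain ⟨x, -, rfl⟩ := List.mem_map.1 hx
      obtain ⟨y, -, rfl⟩ := List.mem_map.1 hy
      rw [glue_ee _ _ _ (by simp) (by simp)]; simp
    · obtain ⟨s, -, rfl⟩ := exists_lift ht
      simp only [List.map_map, Function.comp_def, List.map_id']
      exact glue_c2 _ _ _ _
  obtain ⟨f, q, h3, h4, h5, h6⟩ := hG.real h1 h2 s
  have h7 : ∀ a ∈ old, f (2 * a) = a := fun a ha =>
    h5 (2 * a, a) (h4 _ (List.mem_map_of_mem (f := fun a => (2 * a, a)) ha))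
  have h8 : ∀ u ∈ old.map (fun a => 2 * a) ++ s, (u, f u) ∈ q := by
    intro u hu
    rcases List.mem_append.1 hu with hu | hu
    · obtain ⟨a, ha, rfl⟩ := List.mem_map.1 hu
      rw [h7 a ha]
      exact h4 _ (List.mem_map_of_mem (f := fun a => (2 * a, a)) ha)
    · exact h6 u hu
  refine ⟨f, h7, fun u hu v hv => h3.2.1 _ (h8 u hu) _ (h8 v hv), fun t ht h9 => ?_⟩
  have := h3.2.2 (t.map (fun a => (a, f a))) (fun x hx => by
    obtain ⟨a, ha, rfl⟩ := List.mem_map.1 hx
    exact h6 a (ht a ha)) (by simpa [List.map_map, Function.comp_def] using h9)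
  simpa [List.map_map, Function.comp_def] using this

theorem getD_range_map (f : ℕ → ℕ) {N i : ℕ} (h : i < N) :
    ((List.range N).map f).getD i 0 = f i := by
  simp [List.getD_eq_getElem?_getD, h]

/-- a new path of prescribed colour, completely joined to given loopless vertices -/
theorem addW {ψ : ℕ → Bool} {B : DS} (hG : DGen ψ B) (hV : DValid ψ B) (old : List ℕ)
    (ho : ∀ a ∈ old, B.e a a = false) (x : ℕ) (b : Bool) :
    ∃ w : List ℕ, w.length = x + 1 ∧ ShU B.e w ∧ B.c w = b ∧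
      ∀ a ∈ old, ∀ v ∈ w, B.e a v = true ∧ B.e v a = true := by
  let ne : ℕ → ℕ → Bool := fun u v => if u % 2 = 1 ∧ v % 2 = 1 then pu (u / 2) (v / 2)
    else if u % 2 = 0 then decide (u / 2 ∈ old) else decide (v / 2 ∈ old)
  let s := (List.range (x + 1)).map (fun i => 2 * i + 1)
  obtain ⟨f, h1, h2, h3⟩ := hG.glue hV ne b (fun n g _ hl hg k hk h5 => by
    exfalso
    have h0 := gN_ge n
    have h6 := hg.loop (by omega)
    by_cases h7 : g.getD 0 0 % 2 = 1
    · rw [glue_ne _ _ _ (Or.inl h7)] at h6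
      simp only [ne] at h6
      rw [if_pos ⟨h7, h7⟩] at h6
      simp [pu] at h6
    · have h8 : g.getD 0 0 % 2 = 0 := by omega
      rw [glue_ee _ _ _ h8 h8] at h6
      have h9 : k ≠ 0 := by rintro rfl; omega
      have h10 : g.getD 0 0 / 2 ∈ old := by
        rcases hg.adj (by omega) hk (by omega : 0 < g.length) h9 with h | h
        · rw [glue_ne _ _ _ (Or.inl h5)] at h
          simp only [ne] at h
          rw [if_neg (by omega), if_neg (by omega)] at h
          exact of_decide_eq_true h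
        · rw [glue_ne _ _ _ (Or.inr h5)] at h
          simp only [ne] at h
          rw [if_neg (by omega), if_pos h8] at h
          exact of_decide_eq_true h
      rw [ho _ h10] at h6
      exact absurd h6 (by simp)) old s
  have h4 : ShU (glue B ne b).e s := by
    refine ⟨by simp [s], fun i hi j hj => ?_⟩
    simp only [s, List.length_map, List.length_range] at hi hj
    rw [getD_range_map _ hi, getD_range_map _ hj, glue_ne _ _ _ (Or.inl (by omega))]
    simp only [ne]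
    rw [if_pos (by omega)]
    congr 1 <;> omega
  refine ⟨s.map f, by simp [s], h4.map (fun u hu v hv =>
    h2 u (List.mem_append_right _ hu) v (List.mem_append_right _ hv)), ?_, fun a ha v hv => ?_⟩
  · rw [← h3 s (fun _ h => h) h4]
    simp only [glue]
    rw [if_neg]
    intro h
    have := h 1 (List.mem_map.2 ⟨0, by simp, rfl⟩)
    omega
  · obtain ⟨u, hu, rfl⟩ := List.mem_map.1 hv
    have h5 : 2 * a ∈ old.map (fun a => 2 * a) ++ s :=
      List.mem_append_left _ (List.mem_map_of_mem (f := fun a => 2 * a) ha)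
    have h6 := h2 _ h5 _ (List.mem_append_right _ hu)
    have h7 := h2 _ (List.mem_append_right _ hu) _ h5
    rw [h1 a ha] at h6 h7
    obtain ⟨i, -, rfl⟩ := List.mem_map.1 hu
    rw [← h6, ← h7, glue_ne _ _ _ (Or.inr (by omega)), glue_ne _ _ _ (Or.inl (by omega))]
    simp only [ne]
    rw [if_neg (by omega), if_pos (by omega), if_neg (by omega), if_neg (by omega)]
    simpa using ha

/-- a common out-neighbour -/
theorem addC {ψ : ℕ → Bool} {B : DS} (hG : DGen ψ B) (hV : DValid ψ B) (a b : ℕ) :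
    ∃ c, B.e a c = true ∧ B.e b c = true := by
  let ne : ℕ → ℕ → Bool := fun u _ => decide (u % 2 = 0)
  obtain ⟨f, h1, h2, -⟩ := hG.glue hV ne false (fun n g _ hl hg k hk h5 => by
    exfalso
    have h0 := gN_ge n
    have h6 : (k + 1) % g.length < g.length := Nat.mod_lt _ (by omega)
    have h7 := hg k hk _ h6
    rw [glue_ne _ _ _ (Or.inl h5), eq_comm] at h7
    simp only [ne] at h7
    rw [decide_eq_false (by omega), pe_false h6, succ_mod hk] at h7
    split_ifs at h7 <;> omega) [a, b] [1]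
  refine ⟨f 1, ?_, ?_⟩
  · have := h2 (2 * a) (by simp) 1 (by simp)
    rw [h1 a (by simp), glue_ne _ _ _ (Or.inr rfl)] at this
    rw [← this]; simp [ne]
  · have := h2 (2 * b) (by simp) 1 (by simp)
    rw [h1 b (by simp), glue_ne _ _ _ (Or.inr rfl)] at this
    rw [← this]; simp [ne]

/-- a gadget on two completely joined paths of the right parity -/
theorem addZ {ψ : ℕ → Bool} {B : DS} (hG : DGen ψ B) (hV : DValid ψ B) (n : ℕ) {s t : List ℕ}
    (hs : ShU B.e s) (ht : ShU B.e t) (ls : s.length = gX n + 1) (lt : t.length = gY n + 1)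
    (hc : ∀ a ∈ s, ∀ v ∈ t, B.e a v = true ∧ B.e v a = true)
    (hp : gA n → xor (B.c s) (B.c t) = gP ψ n) :
    ∃ g : List ℕ, g.length = gN n ∧ ShG B.e g ∧ sp n g = s ∧ tp n g = t := by
  classical
  have h0 := gN_ge n
  let gp : ℕ → ℕ := fun i => if 1 ≤ i ∧ i ≤ gX n + 1 then 2 * s.getD (i - 1) 0
    else if gX n + 3 ≤ i ∧ i ≤ gX n + gY n + 3 then 2 * t.getD (i - (gX n + 3)) 0 else 2 * i + 1
  have hgp : ∀ i, (1 ≤ i ∧ i ≤ gX n + 1 ∧ gp i = 2 * s.getD (i - 1) 0) ∨
      (gX n + 3 ≤ i ∧ i ≤ gX n + gY n + 3 ∧ gp i = 2 * t.getD (i - (gX n + 3)) 0) ∨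
      ((i = 0 ∨ i = gX n + 2 ∨ gX n + gY n + 4 ≤ i) ∧ gp i = 2 * i + 1) := by
    intro i
    simp only [gp]
    split_ifs with h1 h2
    · exact Or.inl ⟨h1.1, h1.2, rfl⟩
    · exact Or.inr (Or.inl ⟨h2.1, h2.2, rfl⟩)
    · exact Or.inr (Or.inr ⟨by omega, rfl⟩)
  clear_value gp
  have hst : ∀ i < s.length, ∀ j < t.length, s.getD i 0 ≠ t.getD j 0 := by
    intro i hi j hj h
    have h1 := (hc _ (getD_mem hi) _ (getD_mem hj)).1
    rw [← h, hs.noloop (getD_mem hi)] at h1
    exact absurd h1 (by simp)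
  have hinj : ∀ i j, gp i = gp j → i = j := by
    intro i j h
    rcases hgp i with ⟨a1, a2, a3⟩ | ⟨a1, a2, a3⟩ | ⟨a1, a3⟩ <;>
      rcases hgp j with ⟨b1, b2, b3⟩ | ⟨b1, b2, b3⟩ | ⟨b1, b3⟩ <;> try omega
    · have := hs.inj (i - 1) (by omega) (j - 1) (by omega) (by omega); omega
    · exact absurd (by omega) (hst (i - 1) (by omega) (j - (gX n + 3)) (by omega))
    · exact absurd (by omega) (hst (j - 1) (by omega) (i - (gX n + 3)) (by omega))
    · have := ht.inj (i - (gX n + 3)) (by omega) (j - (gX n + 3)) (by omega) (by omega); omega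
  let ne : ℕ → ℕ → Bool := fun u v =>
    decide (∃ i < gN n, ∃ j < gN n, gp i = u ∧ gp j = v ∧ pe (gN n) i j = true)
  let G := (List.range (gN n)).map gp
  have lG : G.length = gN n := by simp [G]
  have hmem : ∀ {u v}, ne u v = true → u ∈ G ∧ v ∈ G := by
    intro u v h
    obtain ⟨i, hi, j, hj, rfl, rfl, -⟩ := of_decide_eq_true h
    exact ⟨List.mem_map_of_mem (List.mem_range.2 hi), List.mem_map_of_mem (List.mem_range.2 hj)⟩
  have hGG : ShG (glue B ne false).e G := by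
    intro i hi j hj
    rw [lG] at hi hj ⊢
    rw [getD_range_map _ hi, getD_range_map _ hj]
    by_cases h : gp i % 2 = 1 ∨ gp j % 2 = 1
    · rw [glue_ne _ _ _ h, Bool.eq_iff_iff]
      simp only [ne, decide_eq_true_eq]
      refine ⟨?_, fun h => ⟨i, hi, j, hj, rfl, rfl, h⟩⟩
      rintro ⟨i', -, j', -, e1, e2, h⟩
      rwa [hinj _ _ e1, hinj _ _ e2] at h
    · rw [glue_ee _ _ _ (by omega) (by omega), Bool.eq_iff_iff, ← Bool.not_eq_false (pe _ _ _),
        pe_false hj]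
      rcases hgp i with ⟨a1, a2, a3⟩ | ⟨a1, a2, a3⟩ | ⟨a1, a3⟩ <;>
        rcases hgp j with ⟨b1, b2, b3⟩ | ⟨b1, b2, b3⟩ | ⟨b1, b3⟩ <;> try omega
      all_goals rw [a3, b3, Nat.mul_div_cancel_left _ (by omega : 0 < 2),
        Nat.mul_div_cancel_left _ (by omega : 0 < 2)]
      · rw [hs.2 _ (by omega) _ (by omega)]; simp [pu]; omega
      · rw [(hc _ (getD_mem (by omega)) _ (getD_mem (by omega))).1]; simp; omega
      · rw [(hc _ (getD_mem (by omega)) _ (getD_mem (by omega))).2]; simp; omega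
      · rw [ht.2 _ (by omega) _ (by omega)]; simp [pu]; omega
  have hsp : sp n G = s.map (fun a => 2 * a) := by
    refine List.ext_getElem (by rw [len_sp lG, List.length_map, ls]) (fun i h1 h2 => ?_)
    rw [len_sp lG] at h1
    have h3 := getD_td G 1 (gX n + 1) i h1
    rw [getD_range_map _ (by omega)] at h3
    have h4 : gp (1 + i) = 2 * s.getD i 0 := by
      rcases hgp (1 + i) with ⟨-, -, a3⟩ | ⟨a1, a2, a3⟩ | ⟨a1, a3⟩ <;> try omega
      rw [a3, Nat.add_sub_cancel_left]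
    rw [h4] at h3
    rw [List.length_map] at h2
    simpa [List.getD_eq_getElem?_getD, sp, h2, h1, lG, (by omega : i < gN n - 1)] using h3
  have htp : tp n G = t.map (fun a => 2 * a) := by
    refine List.ext_getElem (by rw [len_tp lG, List.length_map, lt]) (fun i h1 h2 => ?_)
    rw [len_tp lG] at h1
    have h3 := getD_td G (gX n + 3) (gY n + 1) i h1
    rw [getD_range_map _ (by omega)] at h3
    have h4 : gp (gX n + 3 + i) = 2 * t.getD i 0 := by
      rcases hgp (gX n + 3 + i) with ⟨a1, a2, a3⟩ | ⟨-, -, a3⟩ | ⟨a1, a3⟩ <;> try omega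
      rw [a3, Nat.add_sub_cancel_left]
    rw [h4] at h3
    rw [List.length_map] at h2
    simpa [List.getD_eq_getElem?_getD, tp, h2, h1, lG,
      (by omega : i < gN n - (gX n + 3))] using h3
  obtain ⟨f, h1, h2, -⟩ := hG.glue hV ne false (fun m g hA hl hg k hk h5 => by
    have h00 := gN_ge m
    have h6 := hg.loop (by omega)
    have h7 : g.getD 0 0 % 2 = 1 := by
      by_contra h7
      have h8 : g.getD 0 0 % 2 = 0 := by omega
      rw [glue_ee _ _ _ h8 h8] at h6
      have h9 : k ≠ 0 := by rintro rfl; omega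
      have h10 : g.getD 0 0 ∈ G := by
        rcases hg.adj (by omega) hk (by omega : 0 < g.length) h9 with h | h
        · rw [glue_ne _ _ _ (Or.inl h5)] at h; exact (hmem h).2
        · rw [glue_ne _ _ _ (Or.inr h5)] at h; exact (hmem h).1
      obtain ⟨i, -, e1⟩ := List.mem_map.1 h10
      rcases hgp i with ⟨a1, a2, a3⟩ | ⟨a1, a2, a3⟩ | ⟨a1, a3⟩
      · rw [← e1, a3, Nat.mul_div_cancel_left _ (by omega : 0 < 2),
          hs.noloop (getD_mem (by omega))] at h6
        exact absurd h6 (by simp)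
      · rw [← e1, a3, Nat.mul_div_cancel_left _ (by omega : 0 < 2),
          ht.noloop (getD_mem (by omega))] at h6
        exact absurd h6 (by simp)
      · omega
    have h8 : g = G := by
      refine hGG.rigid hg (by omega) (fun a ha => ?_)
      obtain ⟨j, hj, rfl⟩ := exists_getD ha
      by_cases h9 : j = 0
      · subst h9
        rw [glue_ne _ _ _ (Or.inl h7)] at h6; exact (hmem h6).1
      · rcases hg.adj (by omega) hj (by omega : 0 < g.length) h9 with h | h
        · rw [glue_ne _ _ _ (Or.inr h7)] at h; exact (hmem h).1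
        · rw [glue_ne _ _ _ (Or.inl h7)] at h; exact (hmem h).2
    subst h8
    obtain rfl : m = n := gN_inj (hl.symm.trans lG)
    rw [hsp, htp, glue_c2, glue_c2]
    exact hp hA) (s ++ t) G
  refine ⟨G.map f, by simp [G], hGG.map (fun u hu v hv =>
    h2 u (List.mem_append_right _ hu) v (List.mem_append_right _ hv)), ?_, ?_⟩
  · rw [sp_map, hsp, List.map_map]
    exact (List.map_congr_left (fun a ha => h1 a (List.mem_append_left _ ha))).trans (List.map_id _)
  · rw [tp_map, htp, List.map_map]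
    exact (List.map_congr_left (fun a ha => h1 a (List.mem_append_right _ ha))).trans
      (List.map_id _)

def lk (x : ℕ) (b : Bool) : ℕ := 3 * x + 1 + (bif b then 1 else 0)

theorem lk_spec (ψ : ℕ → Bool) (x : ℕ) (b : Bool) :
    gX (lk x b) = x ∧ gY (lk x b) = x ∧ gA (lk x b) ∧ gP ψ (lk x b) = b := by
  have h1 : lk x b % 3 ≠ 0 := by cases b <;> simp [lk] <;> omega
  have h2 : lk x b / 3 = x := by cases b <;> (simp only [lk, cond_true, cond_false]; omega)
  refine ⟨by rw [gX, if_neg h1, h2], by rw [gY, if_neg h1, h2], fun h => absurd h h1, ?_⟩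
  rw [gP, if_neg h1]
  cases b
  · simp [lk]
  · simp [lk]; omega

theorem lb_spec (ψ : ℕ → Bool) (l : ℕ) :
    gX (3 * l) = eX l ∧ gY (3 * l) = eY l ∧ (gA (3 * l) ↔ Alive l) ∧ gP ψ (3 * l) = ψ l := by
  simp [gX, gY, gA, gP]

/-- `g` is a gadget of kind `n` on the paths `s` and `t` -/
def Gad (e : ℕ → ℕ → Bool) (n : ℕ) (s t g : List ℕ) : Prop :=
  g.length = gN n ∧ ShG e g ∧ sp n g = s ∧ tp n g = t

theorem Gad.par {ψ : ℕ → Bool} {B : DS} (hV : DValid ψ B) {x : ℕ} {b : Bool} {s t g : List ℕ}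
    (h : Gad B.e (lk x b) s t g) : xor (B.c s) (B.c t) = b := by
  obtain ⟨h1, h2, rfl, rfl⟩ := h
  exact (hV _ g (lk_spec ψ x b).2.2.1 h1 h2).trans (lk_spec ψ x b).2.2.2

theorem Gad.map {e e' : ℕ → ℕ → Bool} {f : ℕ → ℕ} (hf : ∀ a b, e a b = e' (f a) (f b)) {n : ℕ}
    {s t g : List ℕ} (h : Gad e n s t g) : Gad e' n (s.map f) (t.map f) (g.map f) := by
  obtain ⟨h1, h2, rfl, rfl⟩ := h
  exact ⟨by simpa using h1, h2.map (fun a _ b _ => hf a b), sp_map _ _ _, tp_map _ _ _⟩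

theorem link {ψ : ℕ → Bool} {B : DS} (hG : DGen ψ B) (hV : DValid ψ B) {x : ℕ} {s t : List ℕ}
    (hs : ShU B.e s) (ht : ShU B.e t) (ls : s.length = x + 1) (lt : t.length = x + 1) :
    ∃ w g g', Gad B.e (lk x (xor (B.c s) (B.c t))) s w g ∧ Gad B.e (lk x false) t w g' := by
  obtain ⟨w, h1, h2, h3, h4⟩ := addW hG hV (s ++ t) (fun a ha => by
    rcases List.mem_append.1 ha with h | h
    · exact hs.noloop h
    · exact ht.noloop h) x (B.c t)
  obtain ⟨a1, a2, -, a4⟩ := lk_spec ψ x (xor (B.c s) (B.c t))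
  obtain ⟨b1, b2, -, b4⟩ := lk_spec ψ x false
  obtain ⟨g, hg⟩ := addZ hG hV _ hs h2 (by rw [a1, ls]) (by rw [a2, h1])
    (fun a ha => h4 a (List.mem_append_left _ ha)) (fun _ => by rw [a4, h3])
  obtain ⟨g', hg'⟩ := addZ hG hV _ ht h2 (by rw [b1, lt]) (by rw [b2, h1])
    (fun a ha => h4 a (List.mem_append_right _ ha)) (fun _ => by rw [b4, h3]; simp)
  exact ⟨w, g, g', hg, hg'⟩

theorem exists_gad {B : DS} (hG : DGen (fun _ => false) B) (hV : DValid (fun _ => false) B)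
    (l : ℕ) : ∃ g : List ℕ, g.length = gN (3 * l) ∧ ShG B.e g := by
  obtain ⟨s, h1, h2, h3, -⟩ := addW hG hV [] (by simp) (gX (3 * l)) false
  obtain ⟨t, k1, k2, k3, k4⟩ := addW hG hV s (fun a ha => h2.noloop ha) (gY (3 * l)) false
  obtain ⟨g, h4, h5, -⟩ := addZ hG hV _ h2 k2 h1 k1 k4
    (fun _ => by rw [h3, k3, (lb_spec _ l).2.2.2]; rfl)
  exact ⟨g, h4, h5⟩

end Pool.Agent.P.MP_dc233e_lc.Dg
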