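import Pool.Agent.P.MP_dc233e_lc.Dg.C

/-!
The digraph that forgets the colours has exactly two computable copies.
-/

namespace Pool.Agent.P.MP_dc233e_lc.Dg

open Pool.Agent.Lib.Helper43

def Con {A : Type} (r : A → A → Prop) (ν : ℕ → A) : Prop :=
  Function.Surjective ν ∧ ∃ Q E : ℕ × ℕ → Bool, Computable Q ∧ Computable E ∧
    (∀ a b, Q (a, b) = true ↔ ν a = ν b) ∧ ∀ a b, E (a, b) = true ↔ r (ν a) (ν b)

def Aeq {A : Type} (r : A → A → Prop) (ν μ : ℕ → A) : Prop :=
  ∃ (φ : A ≃ A) (f : ℕ → ℕ), (∀ a b, r (φ a) (φ b) ↔ r a b) ∧ Computable f ∧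
    ∀ n, φ (ν n) = μ (f n)

def Olig {A : Type} (r : A → A → Prop) : Prop :=
  ∀ n, ∃ (ι : Type) (_ : Finite ι) (c : (Fin n → A) → ι), ∀ v v', c v = c v' →
    ∃ φ : A ≃ A, (∀ a b, r (φ a) (φ b) ↔ r a b) ∧ φ ∘ v = v'

theorem Aeq.refl {A : Type} (r : A → A → Prop) (ν : ℕ → A) : Aeq r ν ν :=
  ⟨Equiv.refl _, id, fun _ _ => Iff.rfl, Computable.id, fun _ => rfl⟩

theorem Aeq.trans {A : Type} {r : A → A → Prop} {ν μ κ : ℕ → A} (h : Aeq r ν μ)
    (h' : Aeq r μ κ) : Aeq r ν κ := by
  obtain ⟨φ, f, h0, h1, h2⟩ := h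
  obtain ⟨φ', f', h0', h1', h2'⟩ := h'
  exact ⟨φ.trans φ', f' ∘ f, fun a b => (h0' _ _).trans (h0 a b), h1'.comp h1,
    fun n => by simp [h2, h2']⟩

attribute [local irreducible] Computable in
theorem Aeq.symm {A : Type} {r : A → A → Prop} {ν μ : ℕ → A} (h : Aeq r ν μ) (hν : Con r ν)
    (hμ : Con r μ) : Aeq r μ ν := by
  obtain ⟨φ, f, h0, h1, h2⟩ := h
  obtain ⟨-, E, -, e1, -, e3, -⟩ := hμ
  have hex : ∀ m, ∃ n, E (f n, m) = true := fun m => by
    obtain ⟨n, hn⟩ := hν.1 (φ.symm (μ m))
    exact ⟨n, (e3 _ _).2 (by rw [← h2, hn]; simp)⟩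
  refine ⟨φ.symm, fun m => Nat.find (hex m), fun a b => by rw [← h0]; simp,
    CFP.find (p := fun m n => E (f n, m)) (by fun_prop) hex, fun m => ?_⟩
  rw [← (e3 _ _).1 (Nat.find_spec (hex m)), ← h2]; simp

theorem c_ψ (E : Bool) : Computable (fun l => E && eB l) := CFP.and (CFP.const _) c_eB0

noncomputable def SD (E : Bool) : DS := (exists_std (c_ψ E)).choose

theorem SD_valid (E : Bool) : DValid (fun l => E && eB l) (SD E) :=
  (exists_std (c_ψ E)).choose_spec.1

theorem SD_gen (E : Bool) : DGen (fun l => E && eB l) (SD E) :=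
  (exists_std (c_ψ E)).choose_spec.2.1

theorem SD_ce (E : Bool) : Computable (fun x : ℕ × ℕ => (SD E).e x.1 x.2) :=
  (exists_std (c_ψ E)).choose_spec.2.2.1

theorem SD_cc (E : Bool) : Computable (SD E).c := (exists_std (c_ψ E)).choose_spec.2.2.2

theorem SD_comp (E : Bool) : CompDS id (SD E) :=
  ⟨fun x => x.1 == x.2, _, _, by fun_prop, SD_ce E, SD_cc E, by simp, by simp, by simp⟩

theorem V0 : DValid (fun _ => false) (SD false) := SD_valid false
theorem G0 : DGen (fun _ => false) (SD false) := SD_gen false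

def r0 (a b : ℕ) : Prop := (SD false).e a b = true

theorem exists_theta (E : Bool) :
    ∃ θ : ℕ ≃ ℕ, ∀ a b, (SD E).e a b = (SD false).e (θ a) (θ b) := by
  obtain ⟨U, -, hU, -⟩ := exists_U (fun _ => false)
  have hw : ∀ l, Alive l → false = xor (E && eB l) (xor (E && U (eX l)) (E && U (eY l))) := by
    intro l hl
    rw [← hU l hl]
    cases E <;> cases U (eX l) <;> cases U (eY l) <;> rfl
  obtain ⟨θ, -, -, -, -, h⟩ := ds_iso ((SD_valid E).shift (w := fun x => E && U x) hw)
    ((SD_gen E).shift hw) V0 G0 Function.surjective_id Function.surjective_id [] (DPI_nil _ _)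
  exact ⟨θ, h⟩

theorem exists_map_eq {μ : ℕ → ℕ} (h : Function.Surjective μ) (t : List ℕ) :
    ∃ n, (Denumerable.ofNat (List ℕ) n).map μ = t := by
  obtain ⟨s, hs⟩ := h.list_map t
  exact ⟨Encodable.encode s, by simpa using hs⟩

/-- decides a link through an intermediate path -/
def lkb (E Q : ℕ × ℕ → Bool) (s t : List ℕ) (b : Bool) (g g' : List ℕ) : Bool :=
  (g.length == gN (lk (s.length - 1) b)) && shGb E g &&
  (g'.length == gN (lk (s.length - 1) false)) && shGb E g' &&
  (sp (lk (s.length - 1) b) g == s) && (sp (lk (s.length - 1) false) g' == t) &&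
  (List.range s.length).all (fun i => Q ((tp (lk (s.length - 1) b) g).getD i 0,
    (tp (lk (s.length - 1) false) g').getD i 0))

@[fun_prop] theorem c_lk {γ : Type} [Primcodable γ] {x : γ → ℕ} {b : γ → Bool}
    (hx : Computable x) (hb : Computable b) : Computable (fun a => lk (x a) (b a)) := by
  unfold lk; fun_prop

theorem lift_sp {μ : ℕ → ℕ} (h : Function.Surjective μ) {n : ℕ} {g s : List ℕ}
    (hl : g.length = gN n) (hs : sp n g = s.map μ) : ∃ g', g'.map μ = g ∧ sp n g' = s := by
  obtain ⟨g0, rfl⟩ := h.list_map g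
  have h0 := gN_ge n
  have h1 : s.length = gX n + 1 := by rw [← len_sp hl, hs, List.length_map]
  rw [List.length_map] at hl
  refine ⟨g0.take 1 ++ (s ++ g0.drop (gX n + 2)), ?_, ?_⟩
  · rw [List.map_append, List.map_append, ← hs, List.map_take, List.map_drop, sp,
      (by omega : gX n + 2 = 1 + (gX n + 1)), ← List.drop_drop, List.take_append_drop,
      List.take_append_drop]
  · rw [sp, List.drop_left' (by simp; omega), List.take_left' h1]

attribute [local irreducible] Computable eX eY gX gY gN sp tp shGb shUb lk in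
theorem classify {μ : ℕ → ℕ} (h : Con r0 μ) :
    ∃ (E : Bool) (θ : ℕ ≃ ℕ) (f : ℕ → ℕ), Computable f ∧
      (∀ a b, (SD false).e a b = (SD E).e (θ a) (θ b)) ∧ ∀ n, θ (μ n) = f n := by
  obtain ⟨hs, Q, R, e1, e2, e3, e4⟩ := h
  have e5 : ∀ a b, R (a, b) = (SD false).e (μ a) (μ b) := fun a b => Bool.eq_iff_iff.2 (e4 a b)
  have hU : Computable (shUb R) := c_shUb (E := fun _ : List ℕ => R) (by fun_prop) CFP.id
  have hG : Computable (shGb R) := c_shGb (E := fun _ : List ℕ => R) (by fun_prop) CFP.id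
  have x1 : ∀ x, ∃ n, (((Denumerable.ofNat (List ℕ) n).length == x + 1) &&
      shUb R (Denumerable.ofNat (List ℕ) n)) = true := by
    intro x
    obtain ⟨w, h1, h2, -⟩ := addW G0 V0 [] (by simp) x false
    obtain ⟨n, hn⟩ := exists_map_eq hs w
    refine ⟨n, ?_⟩
    rw [Bool.and_eq_true, shUb_iff e5, hn]
    exact ⟨by simpa [h1] using congrArg List.length hn, h2⟩
  let c : ℕ → List ℕ := fun x => Denumerable.ofNat (List ℕ) (Nat.find (x1 x))
  have hc : Computable c := CFP.ofNatList (CFP.find (p := fun x n =>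
    ((Denumerable.ofNat (List ℕ) n).length == x + 1) && shUb R (Denumerable.ofNat (List ℕ) n))
    (by fun_prop) x1)
  have hc1 : ∀ x, (c x).length = x + 1 ∧ ShU (SD false).e ((c x).map μ) := fun x => by
    have := Nat.find_spec (x1 x)
    rw [Bool.and_eq_true, shUb_iff e5, beq_iff_eq] at this
    exact this
  clear_value c
  have x2 : ∀ l, ∃ n, (((Denumerable.ofNat (List ℕ) n).length == gN (3 * l)) &&
      shGb R (Denumerable.ofNat (List ℕ) n)) = true := by
    intro l
    obtain ⟨t, h1, h2⟩ := exists_gad G0 V0 l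
    obtain ⟨n, hn⟩ := exists_map_eq hs t
    refine ⟨n, ?_⟩
    rw [Bool.and_eq_true, shGb_iff e5, hn]
    exact ⟨by simpa [h1] using congrArg List.length hn, h2⟩
  let r : ℕ → List ℕ := fun l => Denumerable.ofNat (List ℕ) (Nat.find (x2 l))
  have hr : Computable r := CFP.ofNatList (CFP.find (p := fun l n =>
    ((Denumerable.ofNat (List ℕ) n).length == gN (3 * l)) && shGb R (Denumerable.ofNat (List ℕ) n))
    (by fun_prop) x2)
  have hr1 : ∀ l, ((r l).map μ).length = gN (3 * l) ∧ ShG (SD false).e ((r l).map μ) := fun l => by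
    have := Nat.find_spec (x2 l)
    rw [Bool.and_eq_true, shGb_iff e5, beq_iff_eq] at this
    exact ⟨by rw [List.length_map]; exact this.1, this.2⟩
  clear_value r
  let w : ℕ → Bool := fun x => (SD false).c ((c x).map μ)
  let P : List ℕ → ℕ → Bool := fun t n => !shUb R t ||
    lkb R Q t (c (t.length - 1)) n.bodd (Denumerable.ofNat (List ℕ) (n / 2).unpair.1)
      (Denumerable.ofNat (List ℕ) (n / 2).unpair.2)
  have hP : Computable (fun x : List ℕ × ℕ => P x.1 x.2) := by
    simp only [P, lkb]; fun_prop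
  have x3 : ∀ t, ∃ n, P t n = true := by
    intro t
    by_cases h1 : shUb R t = true
    · have h2 := (shUb_iff e5 t).1 h1
      have h3 : t.length = t.length - 1 + 1 := by have := h2.1; simp only [List.length_map] at this; omega
      obtain ⟨u, g, g', h4, h5⟩ := link G0 V0 h2 (hc1 (t.length - 1)).2 (by simpa using h3)
        (by simpa using (hc1 _).1)
      generalize xor ((SD false).c (t.map μ)) ((SD false).c ((c (t.length - 1)).map μ)) = b at h4
      obtain ⟨g1, rfl, k1⟩ := lift_sp hs h4.1 h4.2.2.1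
      obtain ⟨g2, rfl, k2⟩ := lift_sp hs h5.1 h5.2.2.1
      refine ⟨Nat.bit b (Nat.pair (Encodable.encode g1) (Encodable.encode g2)), ?_⟩
      have k3 : ∀ m, Nat.bit b m / 2 = m := fun m => by
        rw [← Nat.div2_val, Nat.div2_bit]
      simp only [P, lkb, Nat.bodd_bit, k3, Nat.unpair_pair, Denumerable.ofNat_encode, h1,
        Bool.not_true, Bool.false_or, Bool.and_eq_true, beq_iff_eq, List.all_eq_true,
        List.mem_range, shGb_iff e5, e3]
      have l1 : g1.length = gN (lk (t.length - 1) b) := by simpa using h4.1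
      have l2 : g2.length = gN (lk (t.length - 1) false) := by simpa using h5.1
      refine ⟨⟨⟨⟨⟨⟨l1, h4.2.1⟩, l2⟩, h5.2.1⟩, k1⟩, k2⟩, fun i hi => ?_⟩
      have k4 := h4.2.2.2.trans h5.2.2.2.symm
      rw [tp_map, tp_map] at k4
      have i1 : i < (tp (lk (t.length - 1) b) g1).length := by
        rw [len_tp l1, (lk_spec (fun _ => false) _ _).2.1]; omega
      have i2 : i < (tp (lk (t.length - 1) false) g2).length := by
        rw [len_tp l2, (lk_spec (fun _ => false) _ _).2.1]; omega
      have k5 := congrArg (fun z => List.getD z i 0) k4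
      simp only [getD_map _ _ i1, getD_map _ _ i2] at k5
      simpa [List.getD_eq_getElem?_getD, i1, i2] using k5
    · exact ⟨0, by simp [P, h1]⟩
  let F : List ℕ → Bool := fun t => (Nat.find (x3 t)).bodd
  have hF : Computable F := CFP.bodd (CFP.find hP x3)
  have hF1 : ∀ t, ShU (SD false).e (t.map μ) → F t = (dshift w (SD false)).c (t.map μ) := by
    intro t h1
    have h2 := Nat.find_spec (x3 t)
    simp only [F]
    generalize Nat.find (x3 t) = n at h2
    simp only [P, lkb, (shUb_iff e5 t).2 h1, Bool.not_true, Bool.false_or, Bool.and_eq_true,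
      beq_iff_eq, List.all_eq_true, List.mem_range, shGb_iff e5, e3] at h2
    generalize Denumerable.ofNat (List ℕ) (n / 2).unpair.1 = g1 at h2
    generalize Denumerable.ofNat (List ℕ) (n / 2).unpair.2 = g2 at h2
    obtain ⟨⟨⟨⟨⟨⟨l1, a1⟩, l2⟩, a2⟩, k1⟩, k2⟩, k3⟩ := h2
    have h3 : t.length = t.length - 1 + 1 := by have := h1.1; simp only [List.length_map] at this; omega
    have i1 : (tp (lk (t.length - 1) n.bodd) g1).length = t.length := by
      rw [len_tp l1, (lk_spec (fun _ => false) _ _).2.1]; omega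
    have i2 : (tp (lk (t.length - 1) false) g2).length = t.length := by
      rw [len_tp l2, (lk_spec (fun _ => false) _ _).2.1]; omega
    have k4 : (tp (lk (t.length - 1) n.bodd) g1).map μ = (tp (lk (t.length - 1) false) g2).map μ := by
      refine List.ext_getElem (by simp [i1, i2]) (fun i j1 j2 => ?_)
      rw [List.length_map] at j1 j2
      simpa [List.getD_eq_getElem?_getD, j1, j2] using k3 i (by omega)
    have p1 := Gad.par V0 (s := t.map μ) (g := g1.map μ)
      ⟨by simpa using l1, a1, by rw [sp_map, k1], tp_map _ _ _⟩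
    have p2 := Gad.par V0 (s := (c (t.length - 1)).map μ) (g := g2.map μ)
      ⟨by simpa using l2, a2, by rw [sp_map, k2], tp_map _ _ _⟩
    rw [k4] at p1
    simp only [dshift, List.length_map, w]
    revert p1 p2
    generalize (SD false).c (t.map μ) = y1
    generalize (SD false).c ((c (t.length - 1)).map μ) = y2
    generalize (SD false).c ((tp (lk (t.length - 1) false) g2).map μ) = y3
    generalize n.bodd = y4
    revert y1 y2 y3 y4
    decide
  clear_value F
  let ψ : ℕ → Bool := fun l => xor (F (sp (3 * l) (r l))) (F (tp (3 * l) (r l)))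
  have hψ : Computable ψ := by unfold ψ; fun_prop
  have hV : DValid (fun l => xor (w (eX l)) (w (eY l))) (dshift w (SD false)) :=
    V0.shift (fun l _ => by simp)
  have hψ1 : ∀ l, Alive l → ψ l = xor (w (eX l)) (w (eY l)) := by
    intro l hl
    obtain ⟨h1, h2⟩ := hr1 l
    refine Eq.trans ?_ ((hV _ _ ((lb_spec (fun _ => false) l).2.2.1.2 hl) h1 h2).trans (lb_spec _ l).2.2.2)
    have h3 := h2.shU_sp h1
    have h4 := h2.shU_tp h1
    rw [sp_map] at h3
    rw [tp_map] at h4
    simp only [ψ]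
    rw [hF1 _ h3, hF1 _ h4, sp_map, tp_map]
  obtain ⟨u, E, hu, hu1⟩ := reqM hψ hψ1
  have hw2 : ∀ l, Alive l → (E && eB l) =
      xor (xor (w (eX l)) (w (eY l))) (xor (u (eX l)) (u (eY l))) := by
    intro l hl
    rw [← hψ1 l hl, hu1 l hl]
    cases xor (u (eX l)) (u (eY l)) <;> cases (E && eB l) <;> rfl
  have hG : DGen (fun l => xor (w (eX l)) (w (eY l))) (dshift w (SD false)) :=
    G0.shift (fun l _ => by simp)
  obtain ⟨θ, f, h1, h2, -, h4⟩ := ds_iso (hV.shift hw2) (hG.shift hw2) (SD_valid E) (SD_gen E)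
    hs Function.surjective_id [] (DPI_nil _ _)
  refine ⟨E, θ, f, h1 ?_ (SD_comp E), h4, h2⟩
  exact ⟨Q, R, fun t => xor (F t) (u (t.length - 1)), e1, e2, by fun_prop, e3, e5,
    fun t h5 => by simp only [hF1 t h5, dshift, List.length_map]⟩

attribute [local irreducible] Computable shUb in
theorem not_riso {f : ℕ ≃ ℕ} (hf : Computable f) :
    ¬ ∀ a b, (SD true).e a b = (SD false).e (f a) (f b) := by
  intro h
  have c1 := SD_cc true
  have c0 := SD_cc false
  have ce := SD_ce true
  have hU : Computable (shUb (fun x : ℕ × ℕ => (SD true).e x.1 x.2)) :=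
    c_shUb (E := fun (_ : List ℕ) (x : ℕ × ℕ) => (SD true).e x.1 x.2)
      (ce.comp Computable.snd) CFP.id
  have hi : ∀ t, shUb (fun x : ℕ × ℕ => (SD true).e x.1 x.2) t = true ↔ ShU (SD true).e t :=
    fun t => by
      have := shUb_iff (E := fun x : ℕ × ℕ => (SD true).e x.1 x.2)
        (e := (SD true).e) (μ := id) (fun _ _ => rfl) t
      rwa [List.map_id] at this
  have x1 : ∀ x, ∃ n, (((Denumerable.ofNat (List ℕ) n).length == x + 1) &&
      shUb (fun x : ℕ × ℕ => (SD true).e x.1 x.2) (Denumerable.ofNat (List ℕ) n)) = true := by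
    intro x
    obtain ⟨w, h1, h2, -⟩ := addW (SD_gen true) (SD_valid true) [] (by simp) x false
    exact ⟨Encodable.encode w, by simp [hi, h1, h2]⟩
  let c : ℕ → List ℕ := fun x => Denumerable.ofNat (List ℕ) (Nat.find (x1 x))
  have hc : Computable c := CFP.ofNatList (CFP.find (p := fun x n =>
    ((Denumerable.ofNat (List ℕ) n).length == x + 1) &&
      shUb (fun x : ℕ × ℕ => (SD true).e x.1 x.2) (Denumerable.ofNat (List ℕ) n))
    (by fun_prop) x1)
  have hc1 : ∀ x, (c x).length = x + 1 ∧ ShU (SD true).e (c x) := fun x => by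
    have := Nat.find_spec (x1 x)
    rw [Bool.and_eq_true, hi, beq_iff_eq] at this
    exact this
  clear_value c
  let u : ℕ → Bool := fun x => xor ((SD true).c (c x)) ((SD false).c ((c x).map f))
  have hu : Computable u :=
    CFP.xor (c1.comp hc) (c0.comp (g := fun x : ℕ => (c x).map (fun a => f a)) (by fun_prop))
  have key : ∀ x (t : List ℕ), t.length = x + 1 → ShU (SD true).e t →
      u x = xor ((SD true).c t) ((SD false).c (t.map f)) := by
    intro x t h1 h2
    obtain ⟨w, g, g', h3, h4⟩ := link (SD_gen true) (SD_valid true) h2 (hc1 x).2 h1 (hc1 x).1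
    have p1 := (h3.map h).par V0
    have p2 := (h4.map h).par V0
    simp only [u]
    revert p1 p2
    generalize (SD true).c t = y1
    generalize (SD true).c (c x) = y2
    generalize (SD false).c (t.map f) = y3
    generalize (SD false).c ((c x).map f) = y4
    generalize (SD false).c (w.map f) = y5
    revert y1 y2 y3 y4 y5
    decide
  refine reqN hu (fun l hl => ?_)
  obtain ⟨s, h1, h2⟩ := exists_gad G0 V0 l
  obtain ⟨t, rfl⟩ := f.surjective.list_map s
  obtain ⟨a1, a2, a3, a4⟩ := lb_spec (fun l => true && eB l) l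
  have h4 := (V0 _ _ (a3.2 hl) h1 h2).trans (lb_spec _ l).2.2.2
  rw [List.length_map] at h1
  have h5 : ShG (SD true).e t := by
    simpa using h2.tr (v := id) (e' := (SD true).e) (fun x _ y _ => (h x y).symm)
  have h8 := (SD_valid true _ _ (a3.2 hl) h1 h5).trans a4
  rw [key _ _ (by rw [len_sp h1, a1]) (h5.shU_sp h1), key _ _ (by rw [len_tp h1, a2]) (h5.shU_tp h1)]
  rw [sp_map, tp_map] at h4
  simp only [Bool.true_and] at h8
  rw [← h8]
  revert h4
  generalize (SD false).c ((sp (3 * l) t).map f) = y1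
  generalize (SD false).c ((tp (3 * l) t).map f) = y2
  generalize (SD true).c (sp (3 * l) t) = y3
  generalize (SD true).c (tp (3 * l) t) = y4
  revert y1 y2 y3 y4
  decide

theorem two_copies : ∃ ν : Bool → ℕ → ℕ, (∀ E, Con r0 (ν E)) ∧
    (∀ μ, Con r0 μ → ∃ E, Aeq r0 μ (ν E)) ∧ ¬ Aeq r0 (ν true) (ν false) := by
  choose θ hθ using exists_theta
  refine ⟨fun E => θ E, fun E => ⟨(θ E).surjective, fun x => x.1 == x.2, _, by fun_prop, SD_ce E,
    by simp, fun a b => by rw [hθ]; rfl⟩, fun μ hμ => ?_, ?_⟩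
  · obtain ⟨E, θ', f, h1, h2, h3⟩ := classify hμ
    refine ⟨E, θ'.trans (θ E), f, fun a b => ?_, h1, fun n => by rw [Equiv.trans_apply, h3]⟩
    simp only [r0, Equiv.trans_apply]
    rw [← hθ, ← h2]
  · rintro ⟨φ, f, h0, h1, h2⟩
    let g : ℕ ≃ ℕ := ((θ true).trans φ).trans (θ false).symm
    have hg : ⇑g = f := funext (fun n => by
      show (θ false).symm (φ (θ true n)) = f n
      rw [h2]; simp)
    refine not_riso (f := g) (hg ▸ h1) (fun a b => ?_)
    rw [hθ false, hθ true]
    simp only [g, Equiv.trans_apply, Equiv.apply_symm_apply]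
    exact Bool.eq_iff_iff.2 (h0 _ _).symm

theorem r0_common (a b : ℕ) : ∃ c, r0 a c ∧ r0 b c := addC G0 V0 a b

theorem olig0 : Olig r0 := by
  intro n
  have : Finite {t : List (Fin n) // t.length ≤ n} := (List.finite_length_le (Fin n) n).to_subtype
  refine ⟨(Fin n → Fin n → Prop) × (Fin n → Fin n → Bool) ×
      ({t : List (Fin n) // t.length ≤ n} → Bool),
    inferInstance, fun v => (fun i j => v i = v j, fun i j => (SD false).e (v i) (v j),
      fun t => (SD false).c (t.1.map v)), fun v v' h => ?_⟩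
  obtain ⟨h1, h2⟩ := Prod.mk.inj h
  obtain ⟨h2, h2'⟩ := Prod.mk.inj h2
  have hp : DPI (SD false) (SD false)
      (((List.finRange n).map (fun i => (v i, v' i))).map (Prod.map id id)) := by
    rw [Prod.map_id, List.map_id]
    refine ⟨fun x hx y hy => ?_, fun x hx y hy => ?_, fun t h3 h5 => ?_⟩
    · obtain ⟨i, -, rfl⟩ := List.mem_map.1 hx
      obtain ⟨j, -, rfl⟩ := List.mem_map.1 hy
      exact iff_of_eq (congrFun (congrFun h1 i) j)
    · obtain ⟨i, -, rfl⟩ := List.mem_map.1 hx
      obtain ⟨j, -, rfl⟩ := List.mem_map.1 hy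
      exact congrFun (congrFun h2 i) j
    · have h6 := length_le_of h3 (nodup_of_getD h5.inj)
      obtain ⟨s, -, rfl⟩ := exists_lift h3
      simp only [List.length_map, List.length_finRange] at h6
      simpa [List.map_map, Function.comp_def] using congrFun h2' ⟨s, h6⟩
  obtain ⟨θ, -, -, -, h3, h4⟩ := ds_iso V0 G0 V0 G0
    Function.surjective_id Function.surjective_id _ hp
  refine ⟨θ, fun a b => by simp only [r0]; rw [← h4], funext (fun i => ?_)⟩
  exact h3 (v i, v' i) (List.mem_map.2 ⟨i, List.mem_finRange i, rfl⟩)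

end Pool.Agent.P.MP_dc233e_lc.Dg
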