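import Mathlib

/-!
Definitions used in the statement: constructivizations, autoequivalence, dimension,
effective infinity and countable categoricity, for simple graphs (signature: one binary relation).
-/

namespace Pool.Agent.P.MP_dc233e_lc.Dg

open FirstOrder

/-- The atomic diagram `AD_ν(G)`. The code `(b, true, i, j)` stands for `c_i = c_j` and
`(b, false, i, j)` for `adj(c_i, c_j)`, negated when `b = false`. -/
def AD {V : Type} (G : SimpleGraph V) (ν : ℕ → V) : Set (Bool × Bool × ℕ × ℕ) :=
  {φ | (∃ b i j, φ = (b, true, i, j) ∧ (b = true ↔ ν i = ν j)) ∨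
    ∃ b i j, φ = (b, false, i, j) ∧ (b = true ↔ G.Adj (ν i) (ν j))}

/-- `ν` is a constructivization: a surjection with computable atomic diagram. -/
def IsConstr {V : Type} (G : SimpleGraph V) (ν : ℕ → V) : Prop :=
  Function.Surjective ν ∧ ComputablePred (fun φ => φ ∈ AD G ν)

/-- `ν` and `μ` are autoequivalent. -/
def Autoeq {V : Type} (G : SimpleGraph V) (ν μ : ℕ → V) : Prop :=
  ∃ (φ : G ≃g G) (f : ℕ → ℕ), Computable f ∧ ∀ n, φ (ν n) = μ (f n)

/-- The dimension: the largest number of pairwise non-autoequivalent constructivizations. -/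
noncomputable def dim {V : Type} (G : SimpleGraph V) : ℕ∞ :=
  ⨆ (S : Set (ℕ → V)) (_ : (∀ ν ∈ S, IsConstr G ν) ∧ S.Pairwise (fun ν μ => ¬ Autoeq G ν μ)),
    S.encard

/-- The program `c` computes the characteristic function of `S`. -/
def IsIndex {X : Type} [Primcodable X] (c : Nat.Partrec.Code) (S : Set X) : Prop :=
  ∀ x : X, (x ∈ S → c.eval (Encodable.encode x) = Part.some 1) ∧
    (x ∉ S → c.eval (Encodable.encode x) = Part.some 0)

/-- `G` is effectively infinite. -/
def EffInf {V : Type} (G : SimpleGraph V) : Prop :=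
  ∃ F : Nat.Partrec.Code →. Nat.Partrec.Code, Partrec F ∧
    ∀ (c : Nat.Partrec.Code) (νs : ℕ → ℕ → V), (∀ i, IsConstr G (νs i)) →
      IsIndex c {p : ℕ × (Bool × Bool × ℕ × ℕ) | p.2 ∈ AD G (νs p.1)} →
      ∃ c' ∈ F c, ∃ ν : ℕ → V, IsConstr G ν ∧ IsIndex c' (AD G ν) ∧ ∀ i, ¬ Autoeq G ν (νs i)

/-- `G`, as a structure for the language of graphs, is a countable model of a complete theory
with infinite models, all of whose countable models are isomorphic. -/
def CountCat {V : Type} (G : SimpleGraph V) : Prop :=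
  Countable V ∧ ∃ T : Language.graph.Theory, T.IsComplete ∧
    @Language.Theory.Model _ V G.structure T ∧
    (∃ M : Language.Theory.ModelType.{0, 0, 0} T, Infinite M) ∧
    ∀ M N : Language.Theory.ModelType.{0, 0, 0} T, Countable M → Countable N →
      Nonempty (M ≃[Language.graph] N)

end Pool.Agent.P.MP_dc233e_lc.Dg
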