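import Pool.Agent.P.MP_dc233e_lc.Dg.D

/-!
A disjoint union of `k` copies has exactly `k + 1` computable copies.
-/

namespace Pool.Agent.P.MP_dc233e_lc.Dg

open Pool.Agent.Lib.Helper43

def Pack {A : Type} (r : A → A → Prop) (n : ℕ) : Prop :=
  ∃ ν : ℕ → ℕ → A, (∀ i, Con r (ν i)) ∧ (∀ μ, Con r μ → ∃ i < n, Aeq r μ (ν i)) ∧
    ∀ i < n, ∀ j < n, Aeq r (ν i) (ν j) → i = j

attribute [local irreducible] Computable in
theorem c_fin {α σ : Type} [Primcodable α] [Primcodable σ] {k : ℕ} {f : ℕ → α → σ}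
    (hf : ∀ i < k, Computable (f i)) {c : α → ℕ} (hc : Computable c) (hk : ∀ a, c a < k) :
    Computable (fun a => f (c a) a) := by
  by_cases h0 : k = 0
  · subst h0
    have : IsEmpty α := ⟨fun a => absurd (hk a) (by simp)⟩
    exact (Primrec.dom_finite _).to_comp
  have key : ∀ m ≤ k, Computable (fun a => if c a < m then f (c a) a else f 0 a) := by
    intro m
    induction m with
    | zero => intro _; simpa using hf 0 (by omega)
    | succ m ih =>
      intro hm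
      refine (CFP.ite (c := fun a => c a = m) (CFP.decEq hc (CFP.const _)) (hf m (by omega))
        (ih (by omega))).of_eq (fun a => ?_)
      by_cases h1 : c a = m
      · simp [h1]
      · rw [if_neg h1]
        by_cases h2 : c a < m
        · rw [if_pos h2, if_pos (by omega)]
        · rw [if_neg h2, if_neg (by omega)]
  exact (key k le_rfl).of_eq (fun a => if_pos (hk a))

def rU (k : ℕ) (x y : Fin k × ℕ) : Prop := x.1 = y.1 ∧ r0 x.2 y.2

theorem rU_comp {k : ℕ} {x y : Fin k × ℕ} : x.1 = y.1 ↔ ∃ z, rU k x z ∧ rU k y z := by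
  refine ⟨fun h => ?_, fun ⟨z, h1, h2⟩ => h1.1.trans h2.1.symm⟩
  obtain ⟨c, h1, h2⟩ := r0_common x.2 y.2
  exact ⟨(x.1, c), ⟨rfl, h1⟩, ⟨h.symm, h2⟩⟩

theorem oligU (k : ℕ) : Olig (rU k) := by
  intro n
  obtain ⟨ι, hι, c, hc⟩ := olig0 n
  refine ⟨(Fin n → Fin k) × ι, inferInstance, fun v => (fun i => (v i).1, c (fun i => (v i).2)),
    fun v v' h => ?_⟩
  obtain ⟨h1, h2⟩ := Prod.mk.inj h
  obtain ⟨φ, h3, h4⟩ := hc _ _ h2
  refine ⟨(Equiv.refl _).prodCongr φ, fun a b => by simp [rU, h3], funext (fun i => ?_)⟩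
  exact Prod.ext (congrFun h1 i) (congrFun h4 i)

def SU (K : ℕ) (ν : Bool → ℕ → ℕ) (β : ℕ → Bool) (j : ℕ) : Fin (K + 1) × ℕ :=
  (⟨j % (K + 1), Nat.mod_lt _ (Nat.succ_pos _)⟩, ν (β (j % (K + 1))) (j / (K + 1)))

theorem SU_eq (K : ℕ) (ν : Bool → ℕ → ℕ) (β : ℕ → Bool) (i : Fin (K + 1)) (m : ℕ) :
    SU K ν β ((K + 1) * m + i) = (i, ν (β i) m) := by
  have h1 : ((K + 1) * m + i) % (K + 1) = i := by
    rw [Nat.mul_add_mod, Nat.mod_eq_of_lt i.2]
  have h2 : ((K + 1) * m + i) / (K + 1) = m := by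
    rw [Nat.mul_add_div (Nat.succ_pos _), Nat.div_eq_of_lt i.2, Nat.add_zero]
  simp only [SU, h1, h2]

attribute [local irreducible] Computable in
theorem con_SU (K : ℕ) {ν : Bool → ℕ → ℕ} (hν : ∀ E, Con r0 (ν E)) (β : ℕ → Bool) :
    Con (rU (K + 1)) (SU K ν β) := by
  refine ⟨fun x => ?_, ?_⟩
  · obtain ⟨m, hm⟩ := (hν (β x.1)).1 x.2
    exact ⟨_, by rw [SU_eq, hm]⟩
  choose Q E h1 h2 h3 h4 using fun E => (hν E).2
  have hm : ∀ x : ℕ × ℕ, x.1 % (K + 1) < K + 1 := fun x => Nat.mod_lt _ (Nat.succ_pos _)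
  refine ⟨fun x => (x.1 % (K + 1) == x.2 % (K + 1)) &&
      Q (β (x.1 % (K + 1))) (x.1 / (K + 1), x.2 / (K + 1)),
    fun x => (x.1 % (K + 1) == x.2 % (K + 1)) &&
      E (β (x.1 % (K + 1))) (x.1 / (K + 1), x.2 / (K + 1)),
    CFP.and (by fun_prop) (c_fin (f := fun i (x : ℕ × ℕ) => Q (β i) (x.1 / (K + 1), x.2 / (K + 1)))
      (fun i _ => (h1 _).comp (by fun_prop)) (by fun_prop) hm),
    CFP.and (by fun_prop) (c_fin (f := fun i (x : ℕ × ℕ) => E (β i) (x.1 / (K + 1), x.2 / (K + 1)))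
      (fun i _ => (h2 _).comp (by fun_prop)) (by fun_prop) hm), fun a b => ?_, fun a b => ?_⟩
  · simp only [Bool.and_eq_true, beq_iff_eq, h3, SU, Prod.mk.injEq, Fin.mk.injEq]
    exact and_congr_right (fun h => by rw [h])
  · simp only [Bool.and_eq_true, beq_iff_eq, h4, SU, rU, Fin.mk.injEq]
    exact and_congr_right (fun h => by rw [h])

attribute [local irreducible] Computable in
theorem classifyU (K : ℕ) {ν : Bool → ℕ → ℕ} (hν : ∀ μ, Con r0 μ → ∃ E, Aeq r0 μ (ν E))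
    {μ : ℕ → Fin (K + 1) × ℕ} (h : Con (rU (K + 1)) μ) :
    ∃ β, Aeq (rU (K + 1)) μ (SU K ν β) := by
  obtain ⟨hs, Q, E, e1, e2, e3, e4⟩ := h
  choose r hr using fun i : Fin (K + 1) => hs (i, 0)
  let R : ℕ → ℕ := fun i => r ⟨i % (K + 1), Nat.mod_lt _ (Nat.succ_pos _)⟩
  have hR : Computable R := c_fin (f := fun i (_ : ℕ) => R i) (c := fun i => i % (K + 1))
    (fun i _ => CFP.const _) (by fun_prop) (fun _ => Nat.mod_lt _ (Nat.succ_pos _)) |>.of_eq
      (fun a => by simp [R])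
  have hR1 : ∀ i, ((μ (R i)).1 : ℕ) = i % (K + 1) := fun i => by simp [R, hr]
  clear_value R
  have x1 : ∀ j, ∃ n : ℕ, (E (j, n.unpair.2) && E (R n.unpair.1, n.unpair.2)) = true := by
    intro j
    obtain ⟨z, h1, h2⟩ := (rU_comp (x := μ j) (y := μ (R (μ j).1))).1
      (Fin.ext (by rw [hR1, Nat.mod_eq_of_lt (μ j).1.2]))
    obtain ⟨c, rfl⟩ := hs z
    exact ⟨Nat.pair (μ j).1 c, by simp [e4, h1, h2]⟩
  let cp : ℕ → ℕ := fun j => (Nat.find (x1 j)).unpair.1 % (K + 1)
  have hcp : Computable cp := CFP.mod (CFP.fst (CFP.unpair (CFP.find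
    (p := fun j n => E (j, n.unpair.2) && E (R n.unpair.1, n.unpair.2)) (by fun_prop) x1)))
    (CFP.const _)
  have hcp1 : ∀ j, cp j = (μ j).1 := fun j => by
    have := Nat.find_spec (x1 j)
    rw [Bool.and_eq_true, e4, e4] at this
    rw [rU_comp.2 ⟨_, this⟩, hR1]
  clear_value cp
  have h1 : ∀ i : Fin (K + 1), ∀ j, (μ (if cp j = i then j else r i)).1 = i := by
    intro i j
    split_ifs with h
    · exact Fin.ext (by rw [← hcp1, h])
    · rw [hr]
  have h2 : ∀ i : Fin (K + 1), Con r0 (fun j => (μ (if cp j = i then j else r i)).2) := by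
    intro i
    have hc : Computable (fun j => if cp j = i then j else r i) :=
      CFP.ite (CFP.decEq hcp (CFP.const _)) CFP.id (CFP.const _)
    refine ⟨fun a => ?_, fun x => Q (if cp x.1 = i then x.1 else r i, if cp x.2 = i then x.2 else r i),
      fun x => E (if cp x.1 = i then x.1 else r i, if cp x.2 = i then x.2 else r i),
      e1.comp ((hc.comp Computable.fst).pair (hc.comp Computable.snd)),
      e2.comp ((hc.comp Computable.fst).pair (hc.comp Computable.snd)), fun a b => ?_,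
      fun a b => ?_⟩
    · obtain ⟨j, hj⟩ := hs (i, a)
      exact ⟨j, by simp [hcp1, hj]⟩
    · rw [e3, Prod.ext_iff, h1, h1]; simp
    · rw [e4, rU, h1, h1]; simp
  choose b φ f h3 h4 h5 using fun i => hν _ (h2 i)
  let fin : ℕ → Fin (K + 1) := fun i => ⟨i % (K + 1), Nat.mod_lt _ (Nat.succ_pos _)⟩
  have hfin : ∀ i : Fin (K + 1), fin i = i := fun i => Fin.ext (Nat.mod_eq_of_lt i.2)
  refine ⟨fun i => b (fin i), Equiv.prodCongrRight φ, fun j => (K + 1) * f (fin (cp j)) j + cp j,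
    fun x y => ?_, CFP.add (CFP.mul (CFP.const _) (c_fin (f := fun i j => f (fin i) j)
      (fun i _ => h4 _) hcp (fun j => by rw [hcp1]; exact (μ j).1.2))) hcp, fun j => ?_⟩
  · obtain ⟨i, a⟩ := x
    obtain ⟨j, c⟩ := y
    simp only [rU, Equiv.prodCongrRight_apply]
    exact and_congr_right (fun h => by rw [h, h3])
  · simp only [hcp1]
    rw [SU_eq, hfin, ← h5]
    simp only [if_pos (hcp1 j)]
    rfl

def cnt (k : ℕ) (β : ℕ → Bool) : ℕ := Fintype.card {i : Fin k // β i = true}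

attribute [local irreducible] Computable in
theorem aeq_of_cnt (K : ℕ) (ν : Bool → ℕ → ℕ) {β β' : ℕ → Bool}
    (h : cnt (K + 1) β = cnt (K + 1) β') : Aeq (rU (K + 1)) (SU K ν β) (SU K ν β') := by
  have h1 : ∀ c : Bool, Fintype.card {i : Fin (K + 1) // β i = c} =
      Fintype.card {i : Fin (K + 1) // β' i = c} := by
    intro c
    cases c
    · have a1 := Fintype.card_subtype_compl (fun i : Fin (K + 1) => β i = true)
      have a2 := Fintype.card_subtype_compl (fun i : Fin (K + 1) => β' i = true)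
      simp only [Bool.not_eq_true] at a1 a2
      unfold cnt at h
      rw [a1, a2, h]
    · exact h
  let π : Fin (K + 1) ≃ Fin (K + 1) := Equiv.ofFiberEquiv (f := fun i : Fin (K + 1) => β i)
    (g := fun i : Fin (K + 1) => β' i) (fun c => Fintype.equivOfCardEq (h1 c))
  have hπ : ∀ i, β' (π i) = β i := fun i => Equiv.ofFiberEquiv_map
    (f := fun i : Fin (K + 1) => β i) (g := fun i : Fin (K + 1) => β' i) _ i
  clear_value π
  let fin : ℕ → Fin (K + 1) := fun i => ⟨i % (K + 1), Nat.mod_lt _ (Nat.succ_pos _)⟩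
  refine ⟨π.prodCongr (Equiv.refl _), fun j => (K + 1) * (j / (K + 1)) + π (fin j),
    fun x y => by simp [rU], CFP.add (by fun_prop) ((c_fin (f := fun i (_ : ℕ) => (π (fin i) : ℕ))
      (c := fun i => i % (K + 1)) (fun i _ => CFP.const _) (by fun_prop)
      (fun _ => Nat.mod_lt _ (Nat.succ_pos _))).of_eq (fun a => by simp [fin])), fun j => ?_⟩
  rw [SU_eq, hπ]
  rfl

attribute [local irreducible] Computable in
theorem cnt_of_aeq (K : ℕ) {ν : Bool → ℕ → ℕ} (hν : ∀ E E', Aeq r0 (ν E) (ν E') → E = E')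
    {β β' : ℕ → Bool} (h : Aeq (rU (K + 1)) (SU K ν β) (SU K ν β')) :
    cnt (K + 1) β = cnt (K + 1) β' := by
  obtain ⟨φ, f, h1, h2, h3⟩ := h
  have h4 : ∀ x y, (φ x).1 = (φ y).1 ↔ x.1 = y.1 := by
    intro x y
    rw [rU_comp, rU_comp]
    refine ⟨fun ⟨z, a1, a2⟩ => ?_, fun ⟨z, a1, a2⟩ => ⟨φ z, (h1 _ _).2 a1, (h1 _ _).2 a2⟩⟩
    obtain ⟨z, rfl⟩ := φ.surjective z
    exact ⟨z, (h1 _ _).1 a1, (h1 _ _).1 a2⟩
  let π : Fin (K + 1) → Fin (K + 1) := fun i => (φ (i, 0)).1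
  have hπ : ∀ i a, (φ (i, a)).1 = π i := fun i a => (h4 _ _).2 rfl
  have hinj : Function.Injective π := fun i j h => (h4 _ _).1 h
  clear_value π
  have h5 : ∀ i : Fin (K + 1), β i = β' (π i) := by
    intro i
    have hb : Function.Bijective (fun a => (φ (i, a)).2) := by
      constructor
      · intro a b h
        have : φ (i, a) = φ (i, b) := Prod.ext (by rw [hπ, hπ]) h
        exact (Prod.mk.inj (φ.injective this)).2
      · intro c
        obtain ⟨⟨j, a⟩, h⟩ := φ.surjective (π i, c)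
        obtain rfl : j = i := hinj (by rw [← hπ j a, h])
        exact ⟨a, by simp [h]⟩
    refine hν _ _ ⟨Equiv.ofBijective _ hb, fun j => f ((K + 1) * j + i) / (K + 1),
      fun a b => ?_, by fun_prop, fun j => ?_⟩
    · have := h1 (i, a) (i, b)
      simpa [rU, hπ] using this
    · have h6 := h3 ((K + 1) * j + i)
      rw [SU_eq] at h6
      have h7 := congrArg (fun x => (x.1 : ℕ)) h6
      simp only [hπ, SU] at h7
      rw [Equiv.ofBijective_apply, h6, h7]
      rfl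
  exact Fintype.card_congr ((Equiv.ofBijective π (Finite.injective_iff_bijective.1 hinj)).subtypeEquiv
    (fun i => by rw [h5]; rfl))

theorem cnt_lt (k m : ℕ) (h : m ≤ k) : cnt k (fun i => decide (i < m)) = m := by
  unfold cnt
  simp only [decide_eq_true_eq]
  exact Fintype.card_fin_lt_of_le h

theorem packU (K : ℕ) : Pack (rU (K + 1)) (K + 2) := by
  obtain ⟨ν, h1, h2, h3⟩ := two_copies
  have h4 : ∀ E E', Aeq r0 (ν E) (ν E') → E = E' := by
    intro E E' h
    cases E <;> cases E'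
    · rfl
    · exact absurd (h.symm (h1 _) (h1 _)) h3
    · exact absurd h h3
    · rfl
  refine ⟨fun m => SU K ν (fun i => decide (i < m)), fun m => con_SU K h1 _, fun μ hμ => ?_,
    fun i hi j hj h => ?_⟩
  · obtain ⟨β, hβ⟩ := classifyU K h2 hμ
    have h5 : cnt (K + 1) β ≤ K + 1 := (Fintype.card_subtype_le _).trans (by simp)
    exact ⟨cnt (K + 1) β, by omega, hβ.trans (aeq_of_cnt K ν (cnt_lt _ _ h5).symm)⟩
  · have := cnt_of_aeq K h4 h
    rwa [cnt_lt _ _ (by omega), cnt_lt _ _ (by omega)] at this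

end Pool.Agent.P.MP_dc233e_lc.Dg
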