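import Pool.Agent.P.MP_dc233e_lc.Dg.E

/-!
Coding a binary relation in a simple graph.
-/

namespace Pool.Agent.P.MP_dc233e_lc.Dg

open Pool.Agent.Lib.Helper43

inductive Vx (A : Type) : Type
  | m (i : Fin 4) : Vx A
  | v (a : A) : Vx A
  | p (a b : A) : Vx A
  | q (a b : A) : Vx A

variable {A : Type}

def ad (r : A → A → Prop) : Vx A → Vx A → Prop
  | .m i, .m j => i.1 + 1 = j.1
  | .m i, .v _ => i.1 = 3
  | .m i, .p a b => (i.1 = 1 ∧ r a b) ∨ (i.1 = 2 ∧ ¬ r a b)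
  | .m _, .q _ _ => False
  | .v _, .m _ => False
  | .v _, .v _ => False
  | .v c, .p a _ => c = a
  | .v c, .q _ b => c = b
  | .p _ _, .m _ => False
  | .p _ _, .v _ => False
  | .p _ _, .p _ _ => False
  | .p a b, .q c d => a = c ∧ b = d
  | .q _ _, _ => False

def aj (r : A → A → Prop) (x y : Vx A) : Prop := ad r x y ∨ ad r y x

theorem aj_symm {r : A → A → Prop} {x y : Vx A} (h : aj r x y) : aj r y x := Or.symm h

theorem aj_irrefl (r : A → A → Prop) (x : Vx A) : ¬ aj r x x := by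
  cases x <;> simp [aj, ad]

def Vx.map (f : A → A) : Vx A → Vx A
  | .m i => .m i
  | .v a => .v (f a)
  | .p a b => .p (f a) (f b)
  | .q a b => .q (f a) (f b)

def Vx.equiv (φ : A ≃ A) : Vx A ≃ Vx A where
  toFun := Vx.map φ
  invFun := Vx.map φ.symm
  left_inv x := by cases x <;> simp [Vx.map]
  right_inv x := by cases x <;> simp [Vx.map]

theorem aj_equiv {r : A → A → Prop} {φ : A ≃ A} (h : ∀ a b, r (φ a) (φ b) ↔ r a b) (x y : Vx A) :
    aj r (Vx.equiv φ x) (Vx.equiv φ y) ↔ aj r x y := by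
  cases x <;> cases y <;> simp [aj, ad, Vx.equiv, Vx.map, h]

theorem oligG [Nonempty A] {r : A → A → Prop} (h : Olig r) : Olig (aj r) := by
  intro n
  obtain ⟨a0⟩ := (inferInstance : Nonempty A)
  obtain ⟨ι, hι, c, hc⟩ := h (n + n)
  let tg : Vx A → Fin 4 ⊕ Fin 3 := fun x => match x with
    | .m i => .inl i
    | .v _ => .inr 0
    | .p _ _ => .inr 1
    | .q _ _ => .inr 2
  let c1 : Vx A → A := fun x => match x with
    | .m _ => a0
    | .v a => a
    | .p a _ => a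
    | .q a _ => a
  let c2 : Vx A → A := fun x => match x with
    | .m _ => a0
    | .v a => a
    | .p _ a => a
    | .q _ a => a
  refine ⟨(Fin n → Fin 4 ⊕ Fin 3) × ι, inferInstance,
    fun w => (tg ∘ w, c (Fin.append (c1 ∘ w) (c2 ∘ w))), fun w w' h => ?_⟩
  obtain ⟨h1, h2⟩ := Prod.mk.inj h
  obtain ⟨φ, h3, h4⟩ := hc _ _ h2
  refine ⟨Vx.equiv φ, aj_equiv h3, funext (fun i => ?_)⟩
  have a1 := congrFun h1 i
  have a2 := congrFun h4 (Fin.castAdd n i)
  have a3 := congrFun h4 (Fin.natAdd n i)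
  simp only [Function.comp, Fin.append_left, Fin.append_right] at a1 a2 a3 ⊢
  revert a1 a2 a3
  cases w i <;> cases w' i <;> simp +contextual [tg, c1, c2, Vx.equiv, Vx.map]

theorem r_iff (r : A → A → Prop) (a b : A) : r a b ↔
    ∃ x y, aj r (.v a) x ∧ aj r (.m 1) x ∧ aj r x y ∧ aj r y (.v b) := by
  refine ⟨fun h => ⟨.p a b, .q a b, by simp [aj, ad, h]⟩, ?_⟩
  rintro ⟨x, y, h1, h2, h3, h4⟩
  cases x <;> cases y <;> simp_all [aj, ad]

theorem pq_iff {r : A → A → Prop} {a b : A} {x y : Vx A} (h1 : aj r (.v a) x)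
    (h2 : aj r (.m 1) x ∨ aj r (.m 2) x) (h5 : x ≠ .m 3) (h3 : aj r x y) (h4 : aj r y (.v b)) :
    x = .p a b ∧ y = .q a b := by
  cases x with
  | m i => exact absurd (congrArg Vx.m (Fin.ext (by simpa [aj, ad] using h1))) h5
  | v c => simp [aj, ad] at h1
  | q c d => simp [aj, ad] at h2
  | p c d =>
    cases y with
    | m i =>
      simp only [aj, ad, or_false, false_or] at h3 h4
      omega
    | v e => simp [aj, ad] at h4
    | p e f => simp [aj, ad] at h3
    | q e f => simp_all [aj, ad]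

theorem no_p {r : A → A → Prop} {φ : Vx A ≃ Vx A} (h : ∀ x y, aj r (φ x) (φ y) ↔ aj r x y)
    {x y0 y1 y2 y3 : Vx A} {a b : A} {i : Fin 4} (hx : φ x = .p a b) (h0 : aj r x y0)
    (e0 : φ y0 = .m i) (h1 : aj r x y1) (h2 : aj r x y2) (h3 : aj r x y3) (d1 : y1 ≠ y0)
    (d2 : y2 ≠ y0) (d3 : y3 ≠ y0) (d4 : y1 ≠ y2) (d5 : y1 ≠ y3) (d6 : y2 ≠ y3) : False := by
  have key : ∀ y, aj r x y → y ≠ y0 → y = φ.symm (.v a) ∨ y = φ.symm (.q a b) := by
    intro y hy hne
    rw [← h, hx] at hy h0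
    rw [e0] at h0
    simp only [Equiv.eq_symm_apply]
    have h5 : φ y ≠ .m i := fun e => hne (φ.injective (e.trans e0.symm))
    revert hy h5
    cases φ y with
    | m j =>
      intro hy h5
      simp only [aj, ad, false_or] at hy h0
      exact absurd (congrArg Vx.m (Fin.ext (by
        rcases hy with ⟨a1, a2⟩ | ⟨a1, a2⟩ <;> rcases h0 with ⟨b1, b2⟩ | ⟨b1, b2⟩ <;>
          first | omega | contradiction))) h5
    | v c => simp +contextual [aj, ad]
    | p c d => simp [aj, ad]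
    | q c d => simp only [aj, ad, or_false]; rintro ⟨rfl, rfl⟩ _; simp
  rcases key _ h1 d1 with a1 | a1 <;> rcases key _ h2 d2 with a2 | a2 <;>
    rcases key _ h3 d3 with a3 | a3 <;> simp_all

theorem aut_fix [Infinite A] {r : A → A → Prop}
    (hr : ∃ a b c d, ¬ r a b ∧ ¬ r c d ∧ a ≠ c) {φ : Vx A ≃ Vx A}
    (h : ∀ x y, aj r (φ x) (φ y) ↔ aj r x y) :
    φ (.m 1) = .m 1 ∧ ∀ a, ∃ b, φ (.v a) = .v b := by
  obtain ⟨a0, b0, c0, d0, n1, n2, n3⟩ := hr
  have one : ∀ y, aj r (.m 0) y → y = .m 1 := by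
    intro y hy
    cases y with
    | m i => exact congrArg Vx.m (Fin.ext (by simp only [aj, ad] at hy; simp at hy; omega))
    | v c => simp [aj, ad] at hy
    | p c d => simp [aj, ad] at hy
    | q c d => simp [aj, ad] at hy
  have f0 : φ (.m 0) = .m 0 := by
    have key : ∀ y z, aj r (φ (.m 0)) y → aj r (φ (.m 0)) z → y = z := by
      intro y z hy hz
      obtain ⟨y, rfl⟩ := φ.surjective y
      obtain ⟨z, rfl⟩ := φ.surjective z
      rw [one y ((h _ _).1 hy), one z ((h _ _).1 hz)]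
    revert key
    cases φ (.m 0) with
    | m i =>
      intro key
      fin_cases i
      · rfl
      · simpa [aj, ad] using key (.m 0) (.m 2)
      · simpa [aj, ad] using key (.m 1) (.m 3)
      · simpa [aj, ad] using key (.m 2) (.v a0)
    | v c => intro key; simpa [aj, ad] using key (.m 3) (.p c c)
    | p c d => intro key; simpa [aj, ad] using key (.v c) (.q c d)
    | q c d => intro key; simpa [aj, ad] using key (.v d) (.p c d)
  have f1 : φ (.m 1) = .m 1 := one _ (by rw [← f0, h]; simp [aj, ad])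
  have f2 : φ (.m 2) = .m 2 := by
    have h1 : aj r (.m 1) (φ (.m 2)) := by rw [← f1, h]; simp [aj, ad]
    have h2 : φ (.m 2) ≠ .m 0 := fun e => by simpa using φ.injective (e.trans f0.symm)
    cases e : φ (.m 2) with
    | m i =>
      rw [e] at h1 h2
      fin_cases i <;> simp_all [aj, ad]
    | v c => rw [e] at h1; simp [aj, ad] at h1
    | q c d => rw [e] at h1; simp [aj, ad] at h1
    | p c d =>
      exact (no_p h (y1 := .m 3) (y2 := .p a0 b0) (y3 := .p c0 d0) e (by simp [aj, ad]) f1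
        (by simp [aj, ad]) (by simp [aj, ad, n1]) (by simp [aj, ad, n2]) (by simp) (by simp)
        (by simp) (by simp) (by simp) (by simp [n3])).elim
  have f3 : φ (.m 3) = .m 3 := by
    have h1 : aj r (.m 2) (φ (.m 3)) := by rw [← f2, h]; simp [aj, ad]
    have h2 : φ (.m 3) ≠ .m 1 := fun e => by simpa using φ.injective (e.trans f1.symm)
    cases e : φ (.m 3) with
    | m i =>
      rw [e] at h1 h2
      fin_cases i <;> simp_all [aj, ad]
    | v c => rw [e] at h1; simp [aj, ad] at h1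
    | q c d => rw [e] at h1; simp [aj, ad] at h1
    | p c d =>
      let g := Infinite.natEmbedding A
      exact (no_p h (y1 := .v (g 0)) (y2 := .v (g 1)) (y3 := .v (g 2)) e (by simp [aj, ad]) f2
        (by simp [aj, ad]) (by simp [aj, ad]) (by simp [aj, ad]) (by simp) (by simp)
        (by simp) (by simp) (by simp) (by simp)).elim
  refine ⟨f1, fun a => ?_⟩
  have h1 : aj r (.m 3) (φ (.v a)) := by rw [← f3, h]; simp [aj, ad]
  have h2 : φ (.v a) ≠ .m 2 := fun e => by simpa using φ.injective (e.trans f2.symm)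
  revert h1 h2
  cases φ (.v a) with
  | m i => fin_cases i <;> simp [aj, ad]
  | v c => exact fun _ _ => ⟨c, rfl⟩
  | q c d => simp [aj, ad]
  | p c d => simp [aj, ad]

theorem aut_res [Infinite A] {r : A → A → Prop}
    (hr : ∃ a b c d, ¬ r a b ∧ ¬ r c d ∧ a ≠ c) {φ : Vx A ≃ Vx A}
    (h : ∀ x y, aj r (φ x) (φ y) ↔ aj r x y) :
    ∃ ψ : A ≃ A, (∀ a b, r (ψ a) (ψ b) ↔ r a b) ∧ ∀ a, φ (.v a) = .v (ψ a) := by
  obtain ⟨f1, h1⟩ := aut_fix hr h
  obtain ⟨-, h2⟩ := aut_fix hr (φ := φ.symm) (fun x y => by rw [← h]; simp)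
  choose g hg using h1
  have hb : Function.Bijective g := by
    constructor
    · intro a b e
      have : φ (.v a) = φ (.v b) := by rw [hg, hg, e]
      simpa using φ.injective this
    · intro b
      obtain ⟨a, ha⟩ := h2 b
      refine ⟨a, ?_⟩
      have := hg a
      rw [← ha, Equiv.apply_symm_apply] at this
      simpa using this.symm
  refine ⟨Equiv.ofBijective g hb, fun a b => ?_, hg⟩
  rw [r_iff r (Equiv.ofBijective g hb a), r_iff r a b]
  simp only [Equiv.ofBijective_apply, ← hg]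
  conv_lhs => rw [← f1]
  refine ⟨fun ⟨x, y, h3⟩ => ?_, fun ⟨x, y, h3⟩ => ⟨φ x, φ y, by simpa only [h] using h3⟩⟩
  obtain ⟨x, rfl⟩ := φ.surjective x
  obtain ⟨y, rfl⟩ := φ.surjective y
  exact ⟨x, y, by simpa only [h] using h3⟩

def FV (ν : ℕ → A) (n : ℕ) : Vx A :=
  if n % 4 = 0 then .m ⟨n / 4 % 4, Nat.mod_lt _ (by omega)⟩
  else if n % 4 = 1 then .v (ν (n / 4))
  else if n % 4 = 2 then .p (ν (n / 4).unpair.1) (ν (n / 4).unpair.2)
  else .q (ν (n / 4).unpair.1) (ν (n / 4).unpair.2)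

theorem mod4 (n : ℕ) : n % 4 = 0 ∨ n % 4 = 1 ∨ n % 4 = 2 ∨ n % 4 = 3 := by omega

attribute [local irreducible] Computable in
theorem con_FV {r : A → A → Prop} {ν : ℕ → A} (h : Con r ν) : Con (aj r) (FV ν) := by
  obtain ⟨hs, Q, E, e1, e2, e3, e4⟩ := h
  refine ⟨fun x => ?_, ?_⟩
  · have k : ∀ a j, j < 4 → (4 * a + j) % 4 = j ∧ (4 * a + j) / 4 = a := fun a j h => by omega
    cases x with
    | m i => exact ⟨4 * i + 0, by simp [FV, Nat.mod_eq_of_lt i.2]⟩
    | v a =>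
      obtain ⟨a, rfl⟩ := hs a
      exact ⟨4 * a + 1, by simp [FV, k]⟩
    | p a b =>
      obtain ⟨a, rfl⟩ := hs a
      obtain ⟨b, rfl⟩ := hs b
      exact ⟨4 * Nat.pair a b + 2, by simp [FV, k]⟩
    | q a b =>
      obtain ⟨a, rfl⟩ := hs a
      obtain ⟨b, rfl⟩ := hs b
      exact ⟨4 * Nat.pair a b + 3, by simp [FV, k]⟩
  let D : ℕ × ℕ → Bool := fun x =>
    ((x.1 % 4 == 0) && (x.2 % 4 == 0) && (x.1 / 4 % 4 + 1 == x.2 / 4 % 4)) ||
    ((x.1 % 4 == 0) && (x.2 % 4 == 1) && (x.1 / 4 % 4 == 3)) ||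
    ((x.1 % 4 == 0) && (x.2 % 4 == 2) &&
      (((x.1 / 4 % 4 == 1) && E ((x.2 / 4).unpair.1, (x.2 / 4).unpair.2)) ||
      ((x.1 / 4 % 4 == 2) && !E ((x.2 / 4).unpair.1, (x.2 / 4).unpair.2)))) ||
    ((x.1 % 4 == 1) && (x.2 % 4 == 2) && Q (x.1 / 4, (x.2 / 4).unpair.1)) ||
    ((x.1 % 4 == 1) && (x.2 % 4 == 3) && Q (x.1 / 4, (x.2 / 4).unpair.2)) ||
    ((x.1 % 4 == 2) && (x.2 % 4 == 3) && (Q ((x.1 / 4).unpair.1, (x.2 / 4).unpair.1) &&
      Q ((x.1 / 4).unpair.2, (x.2 / 4).unpair.2)))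
  have hD : Computable D := by unfold D; fun_prop
  have hD1 : ∀ a b, D (a, b) = true ↔ ad r (FV ν a) (FV ν b) := by
    intro a b
    rcases mod4 a with h | h | h | h <;> rcases mod4 b with h' | h' | h' | h' <;>
      simp [D, FV, ad, h, h', e3, e4, -Prod.mk.eta, ← Bool.not_eq_true]
  clear_value D
  refine ⟨fun x => (x.1 % 4 == x.2 % 4) &&
      (((x.1 % 4 == 0) && (x.1 / 4 % 4 == x.2 / 4 % 4)) ||
      ((x.1 % 4 == 1) && Q (x.1 / 4, x.2 / 4)) ||
      (((x.1 % 4 == 2) || (x.1 % 4 == 3)) && (Q ((x.1 / 4).unpair.1, (x.2 / 4).unpair.1) &&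
        Q ((x.1 / 4).unpair.2, (x.2 / 4).unpair.2)))),
    fun x => D x || D (x.2, x.1), by fun_prop, by fun_prop, fun a b => ?_, fun a b => ?_⟩
  · rcases mod4 a with h | h | h | h <;> rcases mod4 b with h' | h' | h' | h' <;>
      simp [FV, h, h', e3]
  · simp only [Bool.or_eq_true, hD1, aj]

attribute [local irreducible] Computable in
theorem aeq_FV {r : A → A → Prop} {ν μ : ℕ → A} (h : Aeq r ν μ) : Aeq (aj r) (FV ν) (FV μ) := by
  obtain ⟨φ, f, h1, h2, h3⟩ := h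
  refine ⟨Vx.equiv φ, fun n => if n % 4 = 0 then n else if n % 4 = 1 then 4 * f (n / 4) + 1
    else 4 * Nat.pair (f (n / 4).unpair.1) (f (n / 4).unpair.2) + n % 4, aj_equiv h1,
    CFP.ite (CFP.decEq (by fun_prop) (CFP.const _)) CFP.id
      (CFP.ite (CFP.decEq (by fun_prop) (CFP.const _)) (by fun_prop) (by fun_prop)), fun n => ?_⟩
  have k : ∀ a j, j < 4 → (4 * a + j) % 4 = j ∧ (4 * a + j) / 4 = a := fun a j h => by omega
  rcases mod4 n with h | h | h | h <;> simp [FV, h, k, Vx.equiv, Vx.map, h3]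

attribute [local irreducible] Computable in
theorem aeq_of_FV [Infinite A] {r : A → A → Prop} (hr : ∃ a b c d, ¬ r a b ∧ ¬ r c d ∧ a ≠ c)
    {ν μ : ℕ → A} (h : Aeq (aj r) (FV ν) (FV μ)) : Aeq r ν μ := by
  obtain ⟨φ, f, h1, h2, h3⟩ := h
  obtain ⟨ψ, h4, h5⟩ := aut_res hr h1
  refine ⟨ψ, fun n => f (4 * n + 1) / 4, h4, by fun_prop, fun n => ?_⟩
  have h6 := h3 (4 * n + 1)
  have h7 : FV ν (4 * n + 1) = .v (ν n) := by
    simp [FV, (by omega : (4 * n + 1) % 4 = 1), (by omega : (4 * n + 1) / 4 = n)]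
  rw [h7, h5] at h6
  rcases mod4 (f (4 * n + 1)) with h | h | h | h <;> simp_all [FV]

attribute [local irreducible] Computable in
theorem exists_FV [Nonempty A] {r : A → A → Prop} {μ : ℕ → Vx A} (h : Con (aj r) μ) :
    ∃ ν, Con r ν ∧ Aeq (aj r) (FV ν) μ := by
  obtain ⟨hs, Q, E, e1, e2, e3, e4⟩ := h
  obtain ⟨a0⟩ := (inferInstance : Nonempty A)
  choose M hM using fun i : Fin 4 => hs (.m i)
  obtain ⟨j0, hj0⟩ := hs (.v a0)
  let g : ℕ → ℕ := fun j => bif E (M 3, j) && !Q (j, M 2) then j else j0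
  have hg : Computable g := by unfold g; fun_prop
  have hg1 : ∀ j, ∃ a, μ (g j) = .v a := by
    intro j
    simp only [g]
    cases h : E (M 3, j) && !Q (j, M 2)
    · exact ⟨a0, hj0⟩
    · rw [Bool.and_eq_true, Bool.not_eq_true', ← Bool.not_eq_true, e3, e4, hM, hM] at h
      simp only [cond_true]
      revert h
      cases μ j with
      | m i => fin_cases i <;> simp [aj, ad]
      | v c => exact fun _ => ⟨c, rfl⟩
      | q c d => simp [aj, ad]
      | p c d => simp [aj, ad]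
  have hg2 : ∀ j a, μ j = .v a → g j = j := by
    intro j a h
    have h1 : E (M 3, j) = true := by rw [e4, hM, h]; simp [aj, ad]
    have h2 : Q (j, M 2) = false := by rw [← Bool.not_eq_true, e3, hM, h]; simp
    simp [g, h1, h2]
  clear_value g
  choose ν hν using hg1
  let P : ℕ × ℕ → ℕ → Bool := fun x n => E (g x.1, n.unpair.1) &&
    (E (M 1, n.unpair.1) || E (M 2, n.unpair.1)) && !Q (n.unpair.1, M 3) &&
    E (n.unpair.1, n.unpair.2) && E (n.unpair.2, g x.2)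
  have x1 : ∀ x, ∃ n, P x n = true := by
    intro x
    obtain ⟨i, hi⟩ := hs (.p (ν x.1) (ν x.2))
    obtain ⟨j, hj⟩ := hs (.q (ν x.1) (ν x.2))
    refine ⟨Nat.pair i j, ?_⟩
    simp only [P, Nat.unpair_pair, Bool.and_eq_true, Bool.or_eq_true, Bool.not_eq_true',
      ← Bool.not_eq_true, e3, e4, hM, hν, hi, hj]
    simp [aj, ad, em]
  let S : ℕ × ℕ → ℕ := fun x => Nat.find (x1 x)
  have hS : Computable S := CFP.find (p := P) (by unfold P; fun_prop) x1
  have hS1 : ∀ x, μ (S x).unpair.1 = .p (ν x.1) (ν x.2) ∧ μ (S x).unpair.2 = .q (ν x.1) (ν x.2) := by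
    intro x
    have := Nat.find_spec (x1 x)
    simp only [P, Bool.and_eq_true, Bool.or_eq_true, Bool.not_eq_true',
      ← Bool.not_eq_true, e3, e4, hM, hν] at this
    exact pq_iff this.1.1.1.1 this.1.1.1.2 this.1.1.2 this.1.2 this.2
  clear_value S
  refine ⟨ν, ⟨fun a => ?_, fun x => Q (g x.1, g x.2), fun x => E (M 1, (S x).unpair.1),
    by fun_prop, by fun_prop, fun a b => by simp [e3, hν], fun a b => ?_⟩, Equiv.refl _,
    fun n => if n % 4 = 0 then (List.ofFn M).getD (n / 4 % 4) 0 else if n % 4 = 1 then g (n / 4)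
      else if n % 4 = 2 then (S (n / 4).unpair).unpair.1 else (S (n / 4).unpair).unpair.2,
    fun _ _ => Iff.rfl, CFP.ite (CFP.decEq (by fun_prop) (CFP.const _)) (by fun_prop)
      (CFP.ite (CFP.decEq (by fun_prop) (CFP.const _)) (by fun_prop)
        (CFP.ite (CFP.decEq (by fun_prop) (CFP.const _)) (by fun_prop) (by fun_prop))),
    fun n => ?_⟩
  · obtain ⟨j, hj⟩ := hs (.v a)
    have := hν j
    rw [hg2 j a hj, hj] at this
    exact ⟨j, by simpa using this.symm⟩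
  · rw [e4, hM, (hS1 (a, b)).1]; simp [aj, ad]
  · have h4 : n / 4 % 4 < 4 := Nat.mod_lt _ (by omega)
    have h5 : (List.ofFn M).getD (n / 4 % 4) 0 = M ⟨_, h4⟩ := by
      rw [List.getD_eq_getElem?_getD, List.getElem?_ofFn, dif_pos h4]; rfl
    rcases mod4 n with h | h | h | h
    · simp only [h, if_true, h5, hM, FV]; rfl
    · simp [FV, h, hν]
    · simp [FV, h, hS1]
    · simp [FV, h, hS1]

theorem packG [Infinite A] {r : A → A → Prop} (hr : ∃ a b c d, ¬ r a b ∧ ¬ r c d ∧ a ≠ c) {n : ℕ}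
    (h : Pack r n) : Pack (aj r) n := by
  obtain ⟨ν, h1, h2, h3⟩ := h
  refine ⟨fun i => FV (ν i), fun i => con_FV (h1 i), fun μ hμ => ?_,
    fun i hi j hj h => h3 i hi j hj (aeq_of_FV hr h)⟩
  obtain ⟨κ, h4, h5⟩ := exists_FV hμ
  obtain ⟨i, hi, h6⟩ := h2 κ h4
  exact ⟨i, hi, (h5.symm (con_FV h4) hμ).trans (aeq_FV h6)⟩

theorem nonedges (K : ℕ) : ∃ a b c d, ¬ rU (K + 1) a b ∧ ¬ rU (K + 1) c d ∧ a ≠ c := by
  obtain ⟨w, h1, h2, -⟩ := addW G0 V0 [] (by simp) 1 false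
  have h3 := h2.noloop (getD_mem (by omega : 0 < w.length))
  have h4 := h2.noloop (getD_mem (by omega : 1 < w.length))
  refine ⟨(0, w.getD 0 0), (0, w.getD 0 0), (0, w.getD 1 0), (0, w.getD 1 0),
    fun h => by have := h.2; rw [r0, h3] at this; simp at this,
    fun h => by have := h.2; rw [r0, h4] at this; simp at this, fun h => ?_⟩
  have := h2.inj 0 (by omega) 1 (by omega) (Prod.mk.inj h).2
  omega

end Pool.Agent.P.MP_dc233e_lc.Dg
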