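import Pool.Agent.P.MP_dc233e_lc.Dg.F
import Pool.Agent.P.MP_dc233e_lc.Dg.Defs
import Pool.Agent.P.MP_dc233e_lc.RN

/-!
Countably categorical graphs of every finite computable dimension.
-/

namespace Pool.Agent.P.MP_dc233e_lc.Dg

open Pool.Agent.Lib.Helper43 FirstOrder

variable {V : Type}

theorem mem_AD_t (G : SimpleGraph V) (ν : ℕ → V) (b : Bool) (i j : ℕ) :
    (b, true, i, j) ∈ AD G ν ↔ (b = true ↔ ν i = ν j) := by
  cases b <;> simp [AD]

theorem mem_AD_f (G : SimpleGraph V) (ν : ℕ → V) (b : Bool) (i j : ℕ) :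
    (b, false, i, j) ∈ AD G ν ↔ (b = true ↔ G.Adj (ν i) (ν j)) := by
  cases b <;> simp [AD]

attribute [local irreducible] Computable in
theorem constr_iff (G : SimpleGraph V) (ν : ℕ → V) : IsConstr G ν ↔ Con G.Adj ν := by
  constructor
  · rintro ⟨hs, h⟩
    obtain ⟨f, hf, e⟩ := ComputablePred.computable_iff.1 h
    have e' : ∀ φ, φ ∈ AD G ν ↔ f φ = true := fun φ => iff_of_eq (congrFun e φ)
    refine ⟨hs, fun x => f (true, true, x), fun x => f (true, false, x), by fun_prop, by fun_prop,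
      fun a b => ?_, fun a b => ?_⟩
    · rw [← e', mem_AD_t]; simp
    · rw [← e', mem_AD_f]; simp
  · rintro ⟨hs, Q, E, e1, e2, e3, e4⟩
    refine ⟨hs, ComputablePred.computable_iff.2
      ⟨fun φ => φ.1 == (bif φ.2.1 then Q φ.2.2 else E φ.2.2), by fun_prop, funext ?_⟩⟩
    rintro ⟨b, c, i, j⟩
    cases c
    · rw [mem_AD_f, ← e4]; cases b <;> simp
    · rw [mem_AD_t, ← e3]; cases b <;> simp

theorem autoeq_iff (G : SimpleGraph V) (ν μ : ℕ → V) : Autoeq G ν μ ↔ Aeq G.Adj ν μ :=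
  ⟨fun ⟨φ, f, h1, h2⟩ => ⟨φ.toEquiv, f, fun _ _ => φ.map_rel_iff, h1, h2⟩,
    fun ⟨φ, f, h0, h1, h2⟩ => ⟨⟨φ, fun {a b} => h0 a b⟩, f, h1, h2⟩⟩

theorem countCat [Countable V] [Infinite V] {G : SimpleGraph V} (h : Olig G.Adj) :
    CountCat G := by
  let := G.structure
  have ho : Oligo Language.graph V := by
    intro n
    obtain ⟨ι, hι, c, hc⟩ := h n
    refine ⟨ι, hι, c, fun v v' e => ?_⟩
    obtain ⟨φ, h1, h2⟩ := hc v v' e
    refine ⟨⟨φ, fun f => isEmptyElim f, fun {n} r x => ?_⟩, h2⟩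
    cases r
    exact h1 _ _
  refine ⟨inferInstance, Language.graph.completeTheory V, Language.completeTheory.isComplete _ _,
    inferInstance, ⟨Language.Theory.ModelType.of _ V, inferInstanceAs (Infinite V)⟩,
    fun M N hM hN => ?_⟩
  obtain ⟨e1⟩ := iso_of_oligo (N := M) ho
  obtain ⟨e2⟩ := iso_of_oligo (N := N) ho
  exact ⟨e2.comp e1.symm⟩

theorem dim_eq {G : SimpleGraph V} {n : ℕ} (h : Pack G.Adj n) : dim G = n := by
  obtain ⟨ν, h1, h2, h3⟩ := h
  refine le_antisymm (iSup₂_le (fun S hS => ?_)) ?_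
  · choose! E hE1 hE using h2
    have hc : ∀ x ∈ S, Con G.Adj x := fun x hx => (constr_iff G x).1 (hS.1 x hx)
    have h4 : Set.InjOn E S := by
      intro x hx y hy e
      by_contra hxy
      refine hS.2 hx hy hxy ((autoeq_iff G _ _).2 ((hE x (hc x hx)).trans ?_))
      rw [e]
      exact (hE y (hc y hy)).symm (hc y hy) (h1 _)
    rw [← h4.encard_image]
    refine (Set.encard_le_encard (t := ↑(Finset.range n)) ?_).trans ?_
    · rintro _ ⟨x, hx, rfl⟩
      simpa using hE1 x (hc x hx)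
    · rw [Set.encard_coe_eq_coe_finsetCard, Finset.card_range]
  · have h4 : Set.InjOn ν ↑(Finset.range n) := fun i hi j hj e =>
      h3 i (by simpa using hi) j (by simpa using hj) (e ▸ Aeq.refl _ _)
    refine le_iSup₂_of_le (ν '' ↑(Finset.range n)) ⟨?_, ?_⟩ ?_
    · rintro _ ⟨i, -, rfl⟩
      exact (constr_iff G _).2 (h1 i)
    · rintro _ ⟨i, hi, rfl⟩ _ ⟨j, hj, rfl⟩ hxy h5
      exact hxy (by
        rw [h3 i (by simpa using hi) j (by simpa using hj) ((autoeq_iff G _ _).1 h5)])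
    · rw [h4.encard_image, Set.encard_coe_eq_coe_finsetCard, Finset.card_range]

theorem exists_index {X : Type} [Primcodable X] {S : Set X} (h : ComputablePred (fun x => x ∈ S)) :
    ∃ c, IsIndex c S := by
  obtain ⟨f, hf, e⟩ := ComputablePred.computable_iff.1 h
  obtain ⟨c, hc⟩ := Nat.Partrec.Code.exists_code.1 hf
  refine ⟨c, fun x => ?_⟩
  have h1 : x ∈ S ↔ f x = true := iff_of_eq (congrFun e x)
  rw [hc, h1]
  cases h2 : f x <;> simp [h2]

attribute [local irreducible] Computable in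
theorem not_effInf {G : SimpleGraph V} {n : ℕ} (hn : 0 < n) (h : Pack G.Adj n) : ¬ EffInf G := by
  obtain ⟨ν, h1, h2, -⟩ := h
  rintro ⟨F, -, hF⟩
  choose f hf e using fun i => ComputablePred.computable_iff.1 ((constr_iff G _).2 (h1 i)).2
  obtain ⟨c, hc⟩ := exists_index (S := {p : ℕ × (Bool × Bool × ℕ × ℕ) |
      p.2 ∈ AD G (ν (p.1 % n))})
    (ComputablePred.computable_iff.2 ⟨fun p => f (p.1 % n) p.2,
      c_fin (k := n) (f := fun i (p : ℕ × (Bool × Bool × ℕ × ℕ)) => f i p.2)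
        (c := fun p => p.1 % n) (fun i _ => (hf i).comp Computable.snd) (by fun_prop)
        (fun _ => Nat.mod_lt _ hn),
      funext (fun p => congrFun (e (p.1 % n)) p.2)⟩)
  obtain ⟨-, -, μ, h3, -, h4⟩ := hF c (fun i => ν (i % n))
    (fun i => (constr_iff G _).2 (h1 _)) hc
  obtain ⟨i, hi, hE⟩ := h2 μ ((constr_iff G _).1 h3)
  refine h4 i ?_
  rw [Nat.mod_eq_of_lt hi]
  exact (autoeq_iff G _ _).2 hE

/-- The graph of dimension `K + 2`. -/
def GK (K : ℕ) : SimpleGraph (Vx (Fin (K + 1) × ℕ)) where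
  Adj := aj (rU (K + 1))
  symm := ⟨fun _ _ => aj_symm⟩
  loopless := ⟨aj_irrefl _⟩

theorem main (K : ℕ) : CountCat (GK K) ∧ (∃ ν, IsConstr (GK K) ν) ∧ ¬ EffInf (GK K) ∧
    dim (GK K) = (K + 2 : ℕ) := by
  have hp : Pack (GK K).Adj (K + 2) := packG (nonedges K) (packU K)
  obtain ⟨ν, h1, -⟩ := id hp
  have : Countable (Vx (Fin (K + 1) × ℕ)) := (h1 0).1.countable
  have : Infinite (Vx (Fin (K + 1) × ℕ)) :=
    Infinite.of_injective Vx.v (fun _ _ e => by simpa using e)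
  exact ⟨countCat (oligG (oligU _)), ⟨ν 0, (constr_iff _ _).2 (h1 0)⟩,
    not_effInf (by omega) hp, dim_eq hp⟩

end Pool.Agent.P.MP_dc233e_lc.Dg
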